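import Pool.Agent.SEG.Rows

/-!
# Segment graphs and reduced genus 0: the concrete hypergraph is planar (kernel computation)
-/

set_option autoImplicit false

namespace Pool.Agent.SEG

theorem tab_ok : tab.Ok nn mm :=
  PTab.ok_of (d := 13) (by decide) (by decide) (by decide) (by decide) (by decide)
    (by decide +kernel) (by decide +kernel) (by decide +kernel) (by decide +kernel)

theorem tab_deg : tab.Deg gV gE nn mm :=
  PTab.deg_of (d := 13) (by decide) (by decide) (by decide)
    (by decide +kernel) (by decide +kernel) (by decide +kernel)

theorem tab_lin : ∀ u < nn, tab.lin gV gE u = true :=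
  PTab.lin_of (d := 11) (by decide) (by decide +kernel)

theorem tab_row : ∀ u < nn, CR u = tab.row gV gE u :=
  PTab.row_of (d := 11) (by decide) (by decide +kernel)

/-- the graph -/
def GG : SimpleGraph (Fin nn) := tab.graph nn mm

theorem GG_adj (u v : Fin nn) : GG.Adj u v ↔ u ≠ v ∧ (CR u).testBit v = true :=
  PTab.adj_iff tab_ok tab_deg tab_row u v

theorem GG_reducedGenusZero : ReducedGenusZero GG :=
  PTab.reducedGenusZero tab_ok tab_deg tab_lin

end Pool.Agent.SEG
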