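import Pool.Agent.SEG.Inst56
import Pool.Agent.SEG.Final0

/-!
# Segment graphs: kernel check of the certificates, the disproof
-/

set_option autoImplicit false

namespace Pool.Agent.SEG.I56

theorem g0 : gadB CR 0 = true := by decide +kernel

theorem g1 : gadB CR 1 = true := by decide +kernel

theorem g2 : gadB CR 2 = true := by decide +kernel

theorem g3 : gadB CR 3 = true := by decide +kernel

theorem g4 : gadB CR 4 = true := by decide +kernel

theorem g5 : gadB CR 5 = true := by decide +kernel

theorem g6 : gadB CR 6 = true := by decide +kernel

theorem g7 : gadB CR 7 = true := by decide +kernel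

theorem g8 : gadB CR 8 = true := by decide +kernel

theorem g9 : gadB CR 9 = true := by decide +kernel

theorem g10 : gadB CR 10 = true := by decide +kernel

theorem g11 : gadB CR 11 = true := by decide +kernel

theorem g12 : gadB CR 12 = true := by decide +kernel

theorem g13 : gadB CR 13 = true := by decide +kernel

theorem g14 : gadB CR 14 = true := by decide +kernel

theorem all_ok : ∀ e < 15, gadB CR e = true := by
  intro e he
  interval_cases e
  · exact g0
  · exact g1
  · exact g2
  · exact g3
  · exact g4
  · exact g5
  · exact g6
  · exact g7
  · exact g8
  · exact g9
  · exact g10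
  · exact g11
  · exact g12
  · exact g13
  · exact g14

theorem rows_ok : Rows GG CR := GG_adj

/-- the graph is not a segment graph -/
theorem not_segment : ¬ IsSegmentGraph GG := not_seg rows_ok all_ok

/-- **the disproof** -/
theorem negAnswer : NegAnswer := ⟨nn, GG, GG_reducedGenusZero, not_segment⟩

end Pool.Agent.SEG.I56
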