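import Pool.Agent.SEG.Planar

/-!
# Segment graphs and reduced genus 0: the graph of a table, closed rows, linearity
-/

set_option autoImplicit false

open Finset

namespace Pool.Agent.SEG

namespace PTab

/-- The graph: two vertices are adjacent if they are in a common hyperedge. -/
def graph (t : PTab) (n m : ℕ) : SimpleGraph (Fin n) where
  Adj u v := u ≠ v ∧ ∃ e < m, u ∈ t.edge n e ∧ v ∈ t.edge n e
  symm := by
    constructor
    rintro u v ⟨h1, e, h2, h3, h4⟩
    exact ⟨h1.symm, e, h2, h4, h3⟩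
  loopless := by
    constructor
    rintro u ⟨h1, -⟩
    exact h1 rfl

/-- the mask of a hyperedge, following the rotation for `k` steps -/
def maskAux (t : PTab) : ℕ → ℕ → ℕ → ℕ
  | 0, _, acc => acc
  | k + 1, i, acc => maskAux t k (t.nE i) (acc ||| 2 ^ t.vi i)

/-- the mask of the hyperedge `e`; `gE` are the sizes of the hyperedges -/
def mask (t : PTab) (gE : ℕ → ℕ) (e : ℕ) : ℕ := maskAux t (gE e) (t.sE e) 0

/-- the closed row of a vertex -/
def rowAux (t : PTab) (gE : ℕ → ℕ) : ℕ → ℕ → ℕ → ℕ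
  | 0, _, acc => acc
  | k + 1, i, acc => rowAux t gE k (t.nV i) (acc ||| t.mask gE (t.ei i))

/-- the closed row of a vertex; `gV` are the degrees of the vertices -/
def row (t : PTab) (gV gE : ℕ → ℕ) (u : ℕ) : ℕ := rowAux t gE (gV u) (t.sV u) 0

/-- linearity at `u` -/
def linAux (t : PTab) (gE : ℕ → ℕ) (u : ℕ) : ℕ → ℕ → ℕ → Bool
  | 0, _, _ => true
  | k + 1, i, acc =>
    Nat.beq ((acc &&& t.mask gE (t.ei i)) ||| 2 ^ u) (2 ^ u) &&
      linAux t gE u k (t.nV i) (acc ||| t.mask gE (t.ei i))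

/-- linearity at `u` -/
def lin (t : PTab) (gV gE : ℕ → ℕ) (u : ℕ) : Bool := linAux t gE u (gV u) (t.sV u) 0

/-- the conditions on the degrees -/
structure Deg (t : PTab) (gV gE : ℕ → ℕ) (n m : ℕ) : Prop where
  gV : ∀ i < t.I, t.kV i < gV (t.vi i)
  gE : ∀ i < t.I, t.kE i < gE (t.ei i)
  sV : ∀ v < n, t.sV v < t.I ∧ t.vi (t.sV v) = v
  sE : ∀ e < m, t.sE e < t.I ∧ t.ei (t.sE e) = e

variable {t : PTab} {n m : ℕ} {gV gE : ℕ → ℕ}

theorem bit_maskAux (k i acc v : ℕ) : (maskAux t k i acc).testBit v = true ↔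
    acc.testBit v = true ∨ ∃ j < k, t.vi (t.nE^[j] i) = v := by
  induction k generalizing i acc with
  | zero =>
    unfold maskAux
    constructor
    · exact Or.inl
    · rintro (h | ⟨j, h, -⟩)
      · exact h
      · omega
  | succ k ih =>
    unfold maskAux
    rw [ih, Nat.testBit_or, Bool.or_eq_true, Nat.testBit_two_pow, decide_eq_true_eq, or_assoc]
    refine or_congr Iff.rfl ?_
    constructor
    · rintro (h | ⟨j, hj, h⟩)
      · exact ⟨0, by omega, h⟩
      · exact ⟨j + 1, by omega, h⟩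
    · rintro ⟨j, hj, h⟩
      rcases j with _ | j
      · exact Or.inl h
      · exact Or.inr ⟨j, by omega, h⟩

theorem iterE (h : t.Ok n m) (e : ℕ) (he : t.sE e < t.I ∧ t.ei (t.sE e) = e) (j : ℕ) :
    t.nE^[j] (t.sE e) < t.I ∧ t.ei (t.nE^[j] (t.sE e)) = e := by
  induction j with
  | zero => exact he
  | succ j ih =>
    rw [Function.iterate_succ_apply']
    have h1 := h.nextE _ ih.1
    exact ⟨h1.1, h1.2.1.trans ih.2⟩

theorem iterV (h : t.Ok n m) (v : ℕ) (hv : t.sV v < t.I ∧ t.vi (t.sV v) = v) (j : ℕ) :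
    t.nV^[j] (t.sV v) < t.I ∧ t.vi (t.nV^[j] (t.sV v)) = v := by
  induction j with
  | zero => exact hv
  | succ j ih =>
    rw [Function.iterate_succ_apply']
    have h1 := h.nextV _ ih.1
    exact ⟨h1.1, h1.2.1.trans ih.2⟩

theorem reachE (h : t.Ok n m) (k i : ℕ) (hi : i < t.I) (hk : t.kE i = k) :
    t.nE^[k] (t.sE (t.ei i)) = i := by
  induction k generalizing i with
  | zero =>
    rcases h.rankE i hi with h1 | h1
    · exact h1.2.symm
    · omega
  | succ k ih =>
    rcases h.rankE i hi with h1 | h1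
    · omega
    · have h2 := h.prevE i hi
      have h3 := ih (t.pE i) h2.1 (by omega)
      rw [h2.2.1] at h3
      rw [Function.iterate_succ_apply', h3, h2.2.2]

theorem reachV (h : t.Ok n m) (k i : ℕ) (hi : i < t.I) (hk : t.kV i = k) :
    t.nV^[k] (t.sV (t.vi i)) = i := by
  induction k generalizing i with
  | zero =>
    rcases h.rankV i hi with h1 | h1
    · exact h1.2.symm
    · omega
  | succ k ih =>
    rcases h.rankV i hi with h1 | h1
    · omega
    · have h2 := h.prevV i hi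
      have h3 := ih (t.pV i) h2.1 (by omega)
      rw [h2.2.1] at h3
      rw [Function.iterate_succ_apply', h3, h2.2.2]

theorem bit_mask (h : t.Ok n m) (hg : t.Deg gV gE n m) {e : ℕ} (he : e < m) (v : Fin n) :
    (t.mask gE e).testBit v = true ↔ v ∈ t.edge n e := by
  unfold mask
  rw [bit_maskAux, mem_edge]
  constructor
  · rintro (h1 | ⟨j, -, h1⟩)
    · rw [Nat.zero_testBit] at h1
      exact absurd h1 (by decide)
    · obtain ⟨h2, h3⟩ := iterE h e (hg.sE e he) j
      exact ⟨_, h2, h1, h3⟩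
  · rintro ⟨i, hi, h1, h2⟩
    refine Or.inr ⟨t.kE i, ?_, ?_⟩
    · rw [← h2]
      exact hg.gE i hi
    · rw [← h2, reachE h _ i hi rfl]
      exact h1

theorem bit_rowAux (k i acc v : ℕ) : (rowAux t gE k i acc).testBit v = true ↔
    acc.testBit v = true ∨ ∃ j < k, (t.mask gE (t.ei (t.nV^[j] i))).testBit v = true := by
  induction k generalizing i acc with
  | zero =>
    unfold rowAux
    constructor
    · exact Or.inl
    · rintro (h | ⟨j, h, -⟩)
      · exact h
      · omega
  | succ k ih =>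
    unfold rowAux
    rw [ih, Nat.testBit_or, Bool.or_eq_true, or_assoc]
    refine or_congr Iff.rfl ?_
    constructor
    · rintro (h | ⟨j, hj, h⟩)
      · exact ⟨0, by omega, h⟩
      · exact ⟨j + 1, by omega, h⟩
    · rintro ⟨j, hj, h⟩
      rcases j with _ | j
      · exact Or.inl h
      · exact Or.inr ⟨j, by omega, h⟩

theorem bit_row (h : t.Ok n m) (hg : t.Deg gV gE n m) (u v : Fin n) :
    (t.row gV gE u).testBit v = true ↔ ∃ e < m, u ∈ t.edge n e ∧ v ∈ t.edge n e := by
  unfold row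
  rw [bit_rowAux]
  constructor
  · rintro (h1 | ⟨j, -, h1⟩)
    · rw [Nat.zero_testBit] at h1
      exact absurd h1 (by decide)
    · obtain ⟨h2, h3⟩ := iterV h u (hg.sV u u.2) j
      have h4 := (h.lt _ h2).2
      exact ⟨_, h4, mem_edge.2 ⟨_, h2, h3, rfl⟩, (bit_mask h hg h4 v).1 h1⟩
  · rintro ⟨e, he, h1, h2⟩
    obtain ⟨i, hi, h3, h4⟩ := mem_edge.1 h1
    refine Or.inr ⟨t.kV i, ?_, ?_⟩
    · rw [← h3]
      exact hg.gV i hi
    · rw [← h3, reachV h _ i hi rfl, h4]
      exact (bit_mask h hg he v).2 h2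

/-- adjacency by closed rows -/
theorem adj_iff (h : t.Ok n m) (hg : t.Deg gV gE n m) {R : ℕ → ℕ}
    (hR : ∀ u < n, R u = t.row gV gE u) (u v : Fin n) :
    (t.graph n m).Adj u v ↔ u ≠ v ∧ (R u).testBit v = true := by
  rw [hR u u.2, bit_row h hg]
  rfl

theorem lin_aux (u k i acc : ℕ) (h : linAux t gE u k i acc = true) :
    (∀ j < k, ∀ v, acc.testBit v = true →
      (t.mask gE (t.ei (t.nV^[j] i))).testBit v = true → v = u) ∧
    ∀ j < k, ∀ j' < j, ∀ v, (t.mask gE (t.ei (t.nV^[j'] i))).testBit v = true →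
      (t.mask gE (t.ei (t.nV^[j] i))).testBit v = true → v = u := by
  induction k generalizing i acc with
  | zero => exact ⟨fun j hj => absurd hj (Nat.not_lt_zero _),
      fun j hj => absurd hj (Nat.not_lt_zero _)⟩
  | succ k ih =>
    unfold linAux at h
    rw [Bool.and_eq_true] at h
    obtain ⟨h1, h2⟩ := h
    have h3 := Nat.eq_of_beq_eq_true h1
    obtain ⟨h4, h5⟩ := ih _ _ h2
    have h6 : ∀ v, acc.testBit v = true → (t.mask gE (t.ei i)).testBit v = true → v = u := by
      intro v hv1 hv2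
      have h7 := congrArg (fun x => x.testBit v) h3
      simp only [Nat.testBit_or, Nat.testBit_and, hv1, hv2, Nat.testBit_two_pow] at h7
      have h8 : u = v := by simpa using h7.symm
      exact h8.symm
    constructor
    · intro j hj v hv1 hv2
      rcases j with _ | j
      · exact h6 v hv1 hv2
      · refine h4 j (by omega) v ?_ hv2
        rw [Nat.testBit_or, hv1, Bool.true_or]
    · intro j hj j' hj' v hv1 hv2
      rcases j with _ | j
      · omega
      · rcases j' with _ | j'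
        · refine h4 j (by omega) v ?_ hv2
          rw [Nat.testBit_or, show (t.mask gE (t.ei i)).testBit v = true from hv1, Bool.or_true]
        · exact h5 j (by omega) j' (by omega) v hv1 hv2

/-- two hyperedges have at most one common vertex -/
theorem linear (h : t.Ok n m) (hg : t.Deg gV gE n m) (hl : ∀ u < n, t.lin gV gE u = true)
    {u v : Fin n} (huv : u ≠ v) {e e' : ℕ} (he : e < m) (he' : e' < m) (h1 : u ∈ t.edge n e)
    (h2 : v ∈ t.edge n e) (h3 : u ∈ t.edge n e') (h4 : v ∈ t.edge n e') : e = e' := by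
  obtain ⟨i, hi, h5, h6⟩ := mem_edge.1 h1
  obtain ⟨i', hi', h7, h8⟩ := mem_edge.1 h3
  obtain ⟨-, h9⟩ := lin_aux _ _ _ _ (hl u u.2)
  have e1 : t.nV^[t.kV i] (t.sV u) = i := by
    rw [← h5]
    exact reachV h _ i hi rfl
  have e2 : t.nV^[t.kV i'] (t.sV u) = i' := by
    rw [← h7]
    exact reachV h _ i' hi' rfl
  have g1 : t.kV i < gV u := by
    rw [← h5]
    exact hg.gV i hi
  have g2 : t.kV i' < gV u := by
    rw [← h7]
    exact hg.gV i' hi'
  have m1 : (t.mask gE (t.ei i)).testBit v = true := by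
    rw [h6]
    exact (bit_mask h hg he v).2 h2
  have m2 : (t.mask gE (t.ei i')).testBit v = true := by
    rw [h8]
    exact (bit_mask h hg he' v).2 h4
  rcases Nat.lt_trichotomy (t.kV i) (t.kV i') with h10 | h10 | h10
  · have := h9 _ g2 _ h10 v (by rw [e1]; exact m1) (by rw [e2]; exact m2)
    exact absurd (Fin.ext this.symm) huv
  · rw [← h6, ← h8]
    rw [← e1, ← e2, h10]
  · have := h9 _ g1 _ h10 v (by rw [e2]; exact m2) (by rw [e1]; exact m1)
    exact absurd (Fin.ext this.symm) huv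

theorem mult_eq (h : t.Ok n m) (hg : t.Deg gV gE n m) (hl : ∀ u < n, t.lin gV gE u = true)
    (u v : Fin n) (huv : u ≠ v) : (t.hyper h).mult u v = mulOf (t.graph n m) u v := by
  unfold Hyper.mult mulOf
  split_ifs with hA
  · obtain ⟨-, e, he, h1, h2⟩ := hA
    rw [Nat.card_eq_one_iff_unique]
    refine ⟨⟨fun a b => ?_⟩, ⟨⟨⟨e, he⟩, h1, h2⟩⟩⟩
    exact Subtype.ext (Fin.ext
      (linear h hg hl huv a.1.2 b.1.2 a.2.1 a.2.2 b.2.1 b.2.2))
  · rw [Nat.card_eq_zero]
    refine Or.inl ⟨fun a => hA ⟨huv, a.1, a.1.2, a.2.1, a.2.2⟩⟩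

theorem reducedGenusZero (h : t.Ok n m) (hg : t.Deg gV gE n m)
    (hl : ∀ u < n, t.lin gV gE u = true) : ReducedGenusZero (t.graph n m) :=
  ⟨m, t.hyper h, mult_eq h hg hl, genusLE_zero h, genus_zero h⟩

end PTab

end Pool.Agent.SEG
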