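import Pool.Agent.SEG.Adj

/-!
# Segment graphs and reduced genus 0: the checker for the tables

Tables are natural numbers in base `8192`.
-/

set_option autoImplicit false

namespace Pool.Agent.SEG

/-- the digit `i` of `N` in base `8192` -/
def dig (N i : ℕ) : ℕ := (N >>> (13 * i)) % 8192

/-- `f` is true on `[s, s + 2^d)` -/
def allB (f : ℕ → Bool) : ℕ → ℕ → Bool
  | 0, s => f s
  | d + 1, s => allB f d s && allB f d (s + 2 ^ d)

theorem allB_spec {f : ℕ → Bool} {d s : ℕ} (h : allB f d s = true) (i : ℕ) (h1 : s ≤ i)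
    (h2 : i < s + 2 ^ d) : f i = true := by
  induction d generalizing s with
  | zero =>
    have : i = s := by
      rw [pow_zero] at h2
      omega
    rw [this]
    exact h
  | succ d ih =>
    unfold allB at h
    rw [Bool.and_eq_true] at h
    rw [pow_succ] at h2
    rcases Nat.lt_or_ge i (s + 2 ^ d) with h3 | h3
    · exact ih h.1 h1 h3
    · exact ih h.2 h3 (by omega)

theorem allB_lt {f : ℕ → Bool} {d N : ℕ} (h : allB (fun i => Nat.ble N i || f i) d 0 = true)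
    (hN : N ≤ 2 ^ d) (i : ℕ) (hi : i < N) : f i = true := by
  have h1 := allB_spec h i (Nat.zero_le _) (by omega)
  rw [Bool.or_eq_true, Nat.ble_eq] at h1
  rcases h1 with h1 | h1
  · omega
  · exact h1

namespace PTab

/-- check of the incidence `i` -/
def okI (t : PTab) (n m i : ℕ) : Bool :=
  Nat.ble (t.vi i + 1) n && Nat.ble (t.ei i + 1) m &&
  (Nat.ble t.I (i + 1) || (Nat.ble (t.vi i + 1) (t.vi (i + 1)) ||
    (Nat.beq (t.vi i) (t.vi (i + 1)) && Nat.ble (t.ei i + 1) (t.ei (i + 1))))) &&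
  (Nat.ble (t.nV i + 1) t.I && Nat.beq (t.vi (t.nV i)) (t.vi i) && Nat.beq (t.pV (t.nV i)) i) &&
  (Nat.ble (t.nE i + 1) t.I && Nat.beq (t.ei (t.nE i)) (t.ei i) && Nat.beq (t.pE (t.nE i)) i) &&
  (Nat.ble (t.pV i + 1) t.I && Nat.beq (t.vi (t.pV i)) (t.vi i) && Nat.beq (t.nV (t.pV i)) i) &&
  (Nat.ble (t.pE i + 1) t.I && Nat.beq (t.ei (t.pE i)) (t.ei i) && Nat.beq (t.nE (t.pE i)) i) &&
  ((Nat.beq (t.kV i) 0 && Nat.beq i (t.sV (t.vi i))) || Nat.beq (t.kV (t.pV i) + 1) (t.kV i)) &&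
  ((Nat.beq (t.kE i) 0 && Nat.beq i (t.sE (t.ei i))) || Nat.beq (t.kE (t.pE i) + 1) (t.kE i)) &&
  (Nat.ble (t.lV i + 1) t.F && Nat.beq (t.lE i) (t.lV (t.nV i)) &&
    Nat.beq (t.lV i) (t.lE (t.nE i)))

/-- check of the face `f` -/
def okF (t : PTab) (f : ℕ) : Bool := Nat.ble (t.rep f + 1) t.I && Nat.beq (t.lV (t.rep f)) f

/-- check of the vertex `v` -/
def okV (t : PTab) (v : ℕ) : Bool :=
  Nat.beq v 0 || (Nat.ble (t.cV v + 1) t.I && Nat.beq (t.vi (t.cV v)) v &&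
    Nat.ble (t.dE (t.ei (t.cV v)) + 1) (t.dV v))

/-- check of the hyperedge `e` -/
def okE (t : PTab) (e : ℕ) : Bool :=
  Nat.ble (t.cE e + 1) t.I && Nat.beq (t.ei (t.cE e)) e &&
    Nat.ble (t.dV (t.vi (t.cE e)) + 1) (t.dE e)

/-- check of the degrees -/
def okD (t : PTab) (gV gE : ℕ → ℕ) (i : ℕ) : Bool :=
  Nat.ble (t.kV i + 1) (gV (t.vi i)) && Nat.ble (t.kE i + 1) (gE (t.ei i))

/-- check of the start incidences -/
def okSV (t : PTab) (v : ℕ) : Bool := Nat.ble (t.sV v + 1) t.I && Nat.beq (t.vi (t.sV v)) v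

/-- check of the start incidences -/
def okSE (t : PTab) (e : ℕ) : Bool := Nat.ble (t.sE e + 1) t.I && Nat.beq (t.ei (t.sE e)) e

variable {t : PTab} {n m d : ℕ} {gV gE : ℕ → ℕ}

theorem ok_of (hI : t.I ≤ 2 ^ d) (hF : t.F ≤ 2 ^ d) (hn : n ≤ 2 ^ d) (hm : m ≤ 2 ^ d)
    (he : t.I + 2 ≤ n + m + t.F)
    (h1 : allB (fun i => Nat.ble t.I i || t.okI n m i) d 0 = true)
    (h2 : allB (fun i => Nat.ble t.F i || t.okF i) d 0 = true)
    (h3 : allB (fun i => Nat.ble n i || t.okV i) d 0 = true)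
    (h4 : allB (fun i => Nat.ble m i || t.okE i) d 0 = true) : t.Ok n m := by
  have g1 := allB_lt h1 hI
  have g2 := allB_lt h2 hF
  have g3 := allB_lt h3 hn
  have g4 := allB_lt h4 hm
  simp only [okI, okF, okV, okE, Bool.and_eq_true, Bool.or_eq_true, Nat.ble_eq, Nat.beq_eq,
    Nat.succ_le_iff] at g1 g2 g3 g4
  refine ⟨he, ?_, ?_, ?_, ?_, ?_, ?_, ?_, ?_, ?_, ?_, ?_, ?_⟩
  · intro i hi
    have h := g1 i hi
    tauto
  · intro i hi hi'
    have h := g1 i hi
    have h5 : ¬ t.I < i + 1 := by omega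
    have h6 : ¬ t.I ≤ i + 1 := by omega
    tauto
  · intro i hi
    have h := g1 i hi
    tauto
  · intro i hi
    have h := g1 i hi
    tauto
  · intro i hi
    have h := g1 i hi
    tauto
  · intro i hi
    have h := g1 i hi
    tauto
  · intro i hi
    have h := g1 i hi
    tauto
  · intro i hi
    have h := g1 i hi
    tauto
  · intro i hi
    have h := g1 i hi
    tauto
  · intro i hi
    have h := g2 i hi
    tauto
  · intro i hi
    have h := g3 i hi
    tauto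
  · intro i hi
    have h := g4 i hi
    tauto

theorem deg_of (hI : t.I ≤ 2 ^ d) (hn : n ≤ 2 ^ d) (hm : m ≤ 2 ^ d)
    (h1 : allB (fun i => Nat.ble t.I i || t.okD gV gE i) d 0 = true)
    (h2 : allB (fun i => Nat.ble n i || t.okSV i) d 0 = true)
    (h3 : allB (fun i => Nat.ble m i || t.okSE i) d 0 = true) : t.Deg gV gE n m := by
  have g1 := allB_lt h1 hI
  have g2 := allB_lt h2 hn
  have g3 := allB_lt h3 hm
  simp only [okD, okSV, okSE, Bool.and_eq_true, Nat.ble_eq, Nat.beq_eq,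
    Nat.succ_le_iff] at g1 g2 g3
  exact ⟨fun i hi => (g1 i hi).1, fun i hi => (g1 i hi).2, g2, g3⟩

theorem lin_of (hn : n ≤ 2 ^ d)
    (h1 : allB (fun i => Nat.ble n i || t.lin gV gE i) d 0 = true) :
    ∀ u < n, t.lin gV gE u = true := fun u hu => allB_lt h1 hn u hu

theorem row_of {R : ℕ → ℕ} (hn : n ≤ 2 ^ d)
    (h1 : allB (fun i => Nat.ble n i || Nat.beq (R i) (t.row gV gE i)) d 0 = true) :
    ∀ u < n, R u = t.row gV gE u := fun u hu => Nat.eq_of_beq_eq_true (allB_lt h1 hn u hu)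

end PTab

end Pool.Agent.SEG
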