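import Pool.Agent.SEG.Rep

/-!
# Segment graphs: kernel checker for the certificates

Vertices are natural numbers below `n`, `R u` is the closed row of `u` as a bit mask, sets of
vertices are lists of natural numbers.
-/

set_option autoImplicit false

namespace Pool.Agent.SEG

/-- the union of the closed rows -/
def nb (R : ℕ → ℕ) : List ℕ → ℕ
  | [] => 0
  | v :: l => Nat.lor (R v) (nb R l)

/-- the mask of a list -/
def msk : List ℕ → ℕ
  | [] => 0
  | v :: l => Nat.lor (Nat.shiftLeft 1 v) (msk l)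

/-- no common and no adjacent members -/
def sepB (R : ℕ → ℕ) (l m : List ℕ) : Bool :=
  Nat.beq (Nat.land (Nat.lor (nb R l) (msk l)) (msk m)) 0

/-- every entry is adjacent or equal to an earlier entry or to an entry counted in `acc` -/
def connAux (n : ℕ) (R : ℕ → ℕ) : ℕ → List ℕ → Bool
  | _, [] => true
  | acc, v :: l => Nat.ble (v + 1) n && (acc.testBit v && connAux n R (Nat.lor acc (R v)) l)

/-- a connected list -/
def connB (n : ℕ) (R : ℕ → ℕ) : List ℕ → Bool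
  | [] => true
  | v :: l => Nat.ble (v + 1) n && connAux n R (R v) l

/-- membership -/
def memB (x : ℕ) (l : List ℕ) : Bool := (msk l).testBit x

/-- inclusion -/
def subB (l m : List ℕ) : Bool := Nat.beq (Nat.lor (msk l) (msk m)) (msk m)

/-- adjacency -/
def adjB (R : ℕ → ℕ) (u v : ℕ) : Bool := !(Nat.beq u v) && (R u).testBit v

/-- all members of `l` but `x` are different from `v` and not adjacent to `v` -/
def armB (R : ℕ → ℕ) (v x : ℕ) (l : List ℕ) : Bool :=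
  Nat.beq (Nat.land (Nat.lor (R v) (Nat.shiftLeft 1 v)) (msk l)) (Nat.shiftLeft 1 x)

theorem bit_shl (v x : ℕ) : (Nat.shiftLeft 1 v).testBit x = true ↔ v = x := by
  have h : Nat.shiftLeft 1 v = 2 ^ v := Nat.one_shiftLeft v
  rw [h, Nat.testBit_two_pow, decide_eq_true_eq]

theorem bit_lor (a b x : ℕ) : (Nat.lor a b).testBit x = true ↔
    a.testBit x = true ∨ b.testBit x = true := by
  have h : Nat.lor a b = a ||| b := rfl
  rw [h, Nat.testBit_or, Bool.or_eq_true]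

theorem bit_land (a b x : ℕ) : (Nat.land a b).testBit x = true ↔
    a.testBit x = true ∧ b.testBit x = true := by
  have h : Nat.land a b = a &&& b := rfl
  rw [h, Nat.testBit_and, Bool.and_eq_true]

theorem bit_msk (l : List ℕ) (x : ℕ) : (msk l).testBit x = true ↔ x ∈ l := by
  induction l with
  | nil => simp [msk]
  | cons v l ih =>
    unfold msk
    rw [bit_lor, bit_shl, ih, List.mem_cons]
    exact or_congr ⟨fun h => h.symm, fun h => h.symm⟩ Iff.rfl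

theorem bit_nb (R : ℕ → ℕ) (l : List ℕ) (x : ℕ) : (nb R l).testBit x = true ↔
    ∃ v ∈ l, (R v).testBit x = true := by
  induction l with
  | nil => simp [nb]
  | cons v l ih =>
    unfold nb
    rw [bit_lor, ih]
    simp

theorem memB_iff {x : ℕ} {l : List ℕ} : memB x l = true ↔ x ∈ l := bit_msk l x

theorem subB_sound {l m : List ℕ} (h : subB l m = true) : ∀ x ∈ l, x ∈ m := by
  intro x hx
  have h1 := Nat.eq_of_beq_eq_true h
  rw [← bit_msk, ← h1, bit_lor]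
  exact Or.inl ((bit_msk l x).2 hx)

section

variable {n : ℕ} {G : SimpleGraph (Fin n)} {R : ℕ → ℕ}

/-- `R` are the closed rows of `G` -/
def Rows (G : SimpleGraph (Fin n)) (R : ℕ → ℕ) : Prop :=
  ∀ u v : Fin n, G.Adj u v ↔ u ≠ v ∧ (R u).testBit v = true

/-- the vertices in a list -/
def LS (n : ℕ) (l : List ℕ) : Set (Fin n) := {v | (v : ℕ) ∈ l}

theorem mem_LS {l : List ℕ} {v : Fin n} : v ∈ LS n l ↔ (v : ℕ) ∈ l := Iff.rfl

theorem adjB_sound (hR : Rows G R) {u v : Fin n} (h : adjB R u v = true) : G.Adj u v := by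
  unfold adjB at h
  rw [Bool.and_eq_true, Bool.not_eq_true'] at h
  refine (hR u v).2 ⟨fun h1 => ?_, h.2⟩
  rw [h1] at h
  have h2 := h.1
  rw [Nat.beq_refl] at h2
  exact Bool.noConfusion h2

theorem sepB_sound (hR : Rows G R) {l m : List ℕ} (h : sepB R l m = true) :
    Sep G (LS n l) (LS n m) := by
  have h1 := Nat.eq_of_beq_eq_true h
  intro s hs t ht
  have h2 : ∀ x : ℕ, x ∈ m → ¬ ((nb R l).testBit x = true ∨ (msk l).testBit x = true) := by
    intro x hx h3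
    have h4 := (bit_land (Nat.lor (nb R l) (msk l)) (msk m) x).2
      ⟨(bit_lor _ _ _).2 h3, (bit_msk m x).2 hx⟩
    rw [h1, Nat.zero_testBit] at h4
    exact Bool.noConfusion h4
  have h3 := h2 t ht
  constructor
  · intro h4
    rw [h4] at hs
    exact h3 (Or.inr ((bit_msk l _).2 hs))
  · intro h4
    exact h3 (Or.inl ((bit_nb R l _).2 ⟨s, hs, ((hR s t).1 h4).2⟩))

theorem LS_single (v : Fin n) : LS n [(v : ℕ)] = {v} := by
  ext u
  rw [mem_LS, List.mem_singleton, Set.mem_singleton_iff]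
  exact ⟨fun h => Fin.ext h, fun h => congrArg _ h⟩

theorem sepB_one (hR : Rows G R) {l : List ℕ} {v : Fin n} (h : sepB R l [(v : ℕ)] = true) :
    Sep G (LS n l) {v} := by
  have h1 := sepB_sound hR h
  rwa [LS_single] at h1

theorem sepB_one' (hR : Rows G R) {u v : Fin n} (h : sepB R [(u : ℕ)] [(v : ℕ)] = true) :
    Sep G {u} {v} := by
  have h1 := sepB_one hR h
  rwa [LS_single] at h1

theorem armB_sound (hR : Rows G R) {l : List ℕ} {v x : Fin n} (h : armB R v x l = true) :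
    Sep G (LS n l \ {x}) {v} := by
  have h1 := Nat.eq_of_beq_eq_true h
  rintro s ⟨hs, hsx⟩ t ht
  rw [Set.mem_singleton_iff] at ht
  rw [ht]
  have h2 : ¬ ((R v).testBit s = true ∨ (v : ℕ) = s) := by
    intro h3
    have h4 := (bit_land (Nat.lor (R v) (Nat.shiftLeft 1 v)) (msk l) s).2
      ⟨(bit_lor _ _ _).2 (h3.imp id fun h5 => (bit_shl _ _).2 h5), (bit_msk l s).2 hs⟩
    rw [h1, bit_shl] at h4
    exact hsx (Fin.ext h4.symm)
  constructor
  · intro h3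
    exact h2 (Or.inr (congrArg _ h3.symm))
  · intro h3
    exact h2 (Or.inl ((hR v s).1 h3.symm).2)

/-- paths in a set, symmetric -/
theorem path_symm {V : Type*} {G : SimpleGraph V} {A : Set V} {u w : V} (hu : u ∈ A)
    (h : Relation.ReflTransGen (fun s t => t ∈ A ∧ G.Adj s t) u w) :
    w ∈ A ∧ Relation.ReflTransGen (fun s t => t ∈ A ∧ G.Adj s t) w u := by
  induction h with
  | refl => exact ⟨hu, Relation.ReflTransGen.refl⟩
  | @tail s t h1 h2 ih => exact ⟨h2.1, Relation.ReflTransGen.head ⟨ih.1, h2.2.symm⟩ ih.2⟩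

theorem connAux_sound (hR : Rows G R) {A : Set (Fin n)} {r : Fin n} (hr : r ∈ A) :
    ∀ (l : List ℕ) (acc : ℕ), connAux n R acc l = true → (∀ v : Fin n, (v : ℕ) ∈ l → v ∈ A) →
    (∀ v : Fin n, v ∈ A → acc.testBit v = true →
      Relation.ReflTransGen (fun s t => t ∈ A ∧ G.Adj s t) r v) →
    ∀ v : Fin n, (v : ℕ) ∈ l → Relation.ReflTransGen (fun s t => t ∈ A ∧ G.Adj s t) r v
  | [], _, _, _, _, v, hv => absurd hv (List.not_mem_nil)
  | w :: l, acc, h, hA, hacc, v, hv => by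
    unfold connAux at h
    rw [Bool.and_eq_true, Bool.and_eq_true] at h
    have h1 : w + 1 ≤ n := Nat.le_of_ble_eq_true h.1
    set w' : Fin n := ⟨w, h1⟩ with hw'
    have h2 : w' ∈ A := hA w' List.mem_cons_self
    have h3 := hacc w' h2 h.2.1
    rcases List.mem_cons.1 hv with h4 | h4
    · have h5 : v = w' := Fin.ext h4
      rw [h5]
      exact h3
    · refine connAux_sound hR hr l _ h.2.2 (fun v hv => hA v (List.mem_cons_of_mem _ hv)) ?_ v h4
      intro u hu hu2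
      rcases (bit_lor _ _ _).1 hu2 with h5 | h5
      · exact hacc u hu h5
      · by_cases h6 : w' = u
        · rw [← h6]
          exact h3
        · exact Relation.ReflTransGen.tail h3 ⟨hu, (hR w' u).2 ⟨h6, h5⟩⟩

theorem connB_sound (hR : Rows G R) {l : List ℕ} (h : connB n R l = true) : Cn G (LS n l) := by
  rcases l with _ | ⟨w, l⟩
  · intro u hu
    exact absurd hu (List.not_mem_nil)
  · unfold connB at h
    rw [Bool.and_eq_true] at h
    have h1 : w + 1 ≤ n := Nat.le_of_ble_eq_true h.1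
    set w' : Fin n := ⟨w, h1⟩ with hw'
    have h2 : w' ∈ LS n (w :: l) := List.mem_cons_self
    have h3 : ∀ v ∈ LS n (w :: l),
        Relation.ReflTransGen (fun s t => t ∈ LS n (w :: l) ∧ G.Adj s t) w' v := by
      intro v hv
      rcases List.mem_cons.1 (mem_LS.1 hv) with h4 | h4
      · have h5 : v = w' := Fin.ext h4
        rw [h5]
      · refine connAux_sound hR h2 l (R w) h.2 (fun v hv => List.mem_cons_of_mem _ hv) ?_ v h4
        intro u hu hu2
        by_cases h6 : w' = u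
        · rw [← h6]
        · exact Relation.ReflTransGen.single ⟨hu, (hR w' u).2 ⟨h6, hu2⟩⟩
    intro u hu v hv
    exact Relation.ReflTransGen.trans (path_symm h2 (h3 u hu)).2 (h3 v hv)

end

/-! ### T1 -/

/-- the data of a `K33` certificate -/
structure T1D where
  r1 : ℕ
  r2 : ℕ
  r3 : ℕ
  r4 : ℕ
  AX : List ℕ
  AY : List ℕ
  AZ : List ℕ
  AW : List ℕ
  R12 : List ℕ
  R23 : List ℕ
  R34 : List ℕ
  R41 : List ℕ

/-- the check of a `K33` certificate -/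
def t1B (n : ℕ) (R : ℕ → ℕ) (v x y z w : ℕ) (D : T1D) : Bool :=
  (adjB R v x && adjB R v y && adjB R v z && adjB R v w) &&
  ((connB n R D.AX && connB n R D.AY && connB n R D.AZ && connB n R D.AW) &&
  (connB n R D.R12 && connB n R D.R23 && connB n R D.R34 && connB n R D.R41)) &&
  ((memB x D.AX && memB y D.AY && memB z D.AZ && memB w D.AW) &&
  (memB D.r1 D.AX && memB D.r1 D.R12 && memB D.r1 D.R41) &&
  (memB D.r3 D.AY && memB D.r3 D.R23 && memB D.r3 D.R34) &&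
  (memB D.r2 D.AZ && memB D.r2 D.R12 && memB D.r2 D.R23) &&
  (memB D.r4 D.AW && memB D.r4 D.R34 && memB D.r4 D.R41)) &&
  ((sepB R D.AX D.AZ && sepB R D.AX D.AW && sepB R D.AY D.AZ && sepB R D.AY D.AW) &&
  (sepB R D.R12 D.R34 && sepB R D.R23 D.R41) &&
  (sepB R D.AX D.R23 && sepB R D.AX D.R34 && sepB R D.AY D.R12 && sepB R D.AY D.R41) &&
  (sepB R D.AZ D.R34 && sepB R D.AZ D.R41 && sepB R D.AW D.R12 && sepB R D.AW D.R23)) &&
  ((sepB R D.R12 [v] && sepB R D.R23 [v] && sepB R D.R34 [v] && sepB R D.R41 [v]) &&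
  (armB R v x D.AX && armB R v y D.AY && armB R v z D.AZ && armB R v w D.AW))

theorem mem_lt_of_connAux {n : ℕ} {R : ℕ → ℕ} : ∀ {l : List ℕ} {acc : ℕ},
    connAux n R acc l = true → ∀ x ∈ l, x < n
  | [], _, _, x, hx => absurd hx (List.not_mem_nil)
  | w :: l, acc, h, x, hx => by
    unfold connAux at h
    rw [Bool.and_eq_true, Bool.and_eq_true] at h
    rcases List.mem_cons.1 hx with h1 | h1
    · rw [h1]
      exact Nat.le_of_ble_eq_true h.1
    · exact mem_lt_of_connAux h.2.2 x h1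

theorem mem_lt_of_connB {n : ℕ} {R : ℕ → ℕ} {l : List ℕ} (h : connB n R l = true) :
    ∀ x ∈ l, x < n := by
  rcases l with _ | ⟨w, l⟩
  · exact fun x hx => absurd hx (List.not_mem_nil)
  · intro x hx
    unfold connB at h
    rw [Bool.and_eq_true] at h
    rcases List.mem_cons.1 hx with h1 | h1
    · rw [h1]
      exact Nat.le_of_ble_eq_true h.1
    · exact mem_lt_of_connAux h.2 x h1

theorem t1B_sound {n : ℕ} {G : SimpleGraph (Fin n)} {R : ℕ → ℕ} (hR : Rows G R)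
    {v x y z w : Fin n} {D : T1D} (h : t1B n R v x y z w D = true) :
    Nonempty (T1C G v x y z w) := by
  unfold t1B at h
  simp only [Bool.and_eq_true] at h
  obtain ⟨⟨⟨⟨⟨⟨⟨a1, a2⟩, a3⟩, a4⟩, ⟨⟨⟨b1, b2⟩, b3⟩, b4⟩, ⟨⟨⟨b5, b6⟩, b7⟩, b8⟩⟩,
    ⟨⟨⟨⟨⟨⟨c1, c2⟩, c3⟩, c4⟩, ⟨⟨c5, c6⟩, c7⟩⟩, ⟨⟨c8, c9⟩, c10⟩⟩, ⟨⟨c11, c12⟩, c13⟩⟩,
      ⟨⟨c14, c15⟩, c16⟩⟩,
    ⟨⟨⟨⟨⟨⟨d1, d2⟩, d3⟩, d4⟩, ⟨d5, d6⟩⟩, ⟨⟨⟨d7, d8⟩, d9⟩, d10⟩⟩, ⟨⟨⟨d11, d12⟩, d13⟩, d14⟩⟩⟩,
    ⟨⟨⟨⟨e1, e2⟩, e3⟩, e4⟩, ⟨⟨⟨f1, f2⟩, f3⟩, f4⟩⟩⟩ := h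
  have l1 : D.r1 < n := mem_lt_of_connB b1 _ (memB_iff.1 c5)
  have l3 : D.r3 < n := mem_lt_of_connB b2 _ (memB_iff.1 c8)
  have l2 : D.r2 < n := mem_lt_of_connB b3 _ (memB_iff.1 c11)
  have l4 : D.r4 < n := mem_lt_of_connB b4 _ (memB_iff.1 c14)
  exact ⟨{
    r1 := ⟨D.r1, l1⟩
    r2 := ⟨D.r2, l2⟩
    r3 := ⟨D.r3, l3⟩
    r4 := ⟨D.r4, l4⟩
    AX := LS n D.AX
    AY := LS n D.AY
    AZ := LS n D.AZ
    AW := LS n D.AW
    R12 := LS n D.R12
    R23 := LS n D.R23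
    R34 := LS n D.R34
    R41 := LS n D.R41
    hx := adjB_sound hR a1
    hy := adjB_sound hR a2
    hz := adjB_sound hR a3
    hw := adjB_sound hR a4
    cX := connB_sound hR b1
    cY := connB_sound hR b2
    cZ := connB_sound hR b3
    cW := connB_sound hR b4
    c12 := connB_sound hR b5
    c23 := connB_sound hR b6
    c34 := connB_sound hR b7
    c41 := connB_sound hR b8
    xX := memB_iff.1 c1
    yY := memB_iff.1 c2
    zZ := memB_iff.1 c3
    wW := memB_iff.1 c4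
    r1X := memB_iff.1 c5
    r1a := memB_iff.1 c6
    r1b := memB_iff.1 c7
    r3Y := memB_iff.1 c8
    r3a := memB_iff.1 c9
    r3b := memB_iff.1 c10
    r2Z := memB_iff.1 c11
    r2a := memB_iff.1 c12
    r2b := memB_iff.1 c13
    r4W := memB_iff.1 c14
    r4a := memB_iff.1 c15
    r4b := memB_iff.1 c16
    sXZ := sepB_sound hR d1
    sXW := sepB_sound hR d2
    sYZ := sepB_sound hR d3
    sYW := sepB_sound hR d4
    s13 := sepB_sound hR d5
    s24 := sepB_sound hR d6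
    sX23 := sepB_sound hR d7
    sX34 := sepB_sound hR d8
    sY12 := sepB_sound hR d9
    sY41 := sepB_sound hR d10
    sZ34 := sepB_sound hR d11
    sZ41 := sepB_sound hR d12
    sW12 := sepB_sound hR d13
    sW23 := sepB_sound hR d14
    v12 := sepB_one hR e1
    v23 := sepB_one hR e2
    v34 := sepB_one hR e3
    v41 := sepB_one hR e4
    vX := armB_sound hR f1
    vY := armB_sound hR f2
    vZ := armB_sound hR f3
    vW := armB_sound hR f4 }⟩

/-- the statement used in the count: `x` and `y` are not both beyond the connectors `z, w` -/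
theorem t1B_pos {n : ℕ} {G : SimpleGraph (Fin n)} {R : ℕ → ℕ} (hR : Rows G R) (P : Rep G)
    {v x y z w : Fin n} {D : T1D} (h : t1B n R v x y z w D = true) :
    ¬ (P.pos v x < P.pos v z ∧ P.pos v x < P.pos v w ∧ P.pos v y < P.pos v z ∧
      P.pos v y < P.pos v w) ∧
    ¬ (P.pos v z < P.pos v x ∧ P.pos v w < P.pos v x ∧ P.pos v z < P.pos v y ∧
      P.pos v w < P.pos v y) := by
  obtain ⟨C⟩ := t1B_sound hR h
  exact C.t1 P

/-! ### T2: hexagon edges -/

/-- the check for an edge `a u` with connectors of `a` in `A` and connectors of `u` in `B` -/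
def hzB (n : ℕ) (R : ℕ → ℕ) (a u : ℕ) (A B : List ℕ) : Bool :=
  adjB R a u && connB n R A && connB n R B && sepB R A B && sepB R A [u] && sepB R B [a]

theorem hzB_sound {n : ℕ} {G : SimpleGraph (Fin n)} {R : ℕ → ℕ} (hR : Rows G R) (P : Rep G)
    {a u : Fin n} {A B : List ℕ} (h : hzB n R a u A B = true) {k1 k2 m1 m2 : Fin n}
    (hk1 : G.Adj a k1) (hk2 : G.Adj a k2) (hm1 : G.Adj u m1) (hm2 : G.Adj u m2)
    (k1A : (k1 : ℕ) ∈ A) (k2A : (k2 : ℕ) ∈ A) (m1B : (m1 : ℕ) ∈ B) (m2B : (m2 : ℕ) ∈ B)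
    (h1 : P.pos a k1 ≤ P.pos a u) (h2 : P.pos a u ≤ P.pos a k2)
    (h3 : P.pos u m1 ≤ P.pos u a) (h4 : P.pos u a ≤ P.pos u m2) : False := by
  unfold hzB at h
  simp only [Bool.and_eq_true] at h
  obtain ⟨⟨⟨⟨⟨a1, a2⟩, a3⟩, a4⟩, a5⟩, a6⟩ := h
  exact P.t2' (adjB_sound hR a1) (connB_sound hR a2) (connB_sound hR a3) (sepB_sound hR a4)
    (sepB_one hR a5) (sepB_one hR a6) hk1 hk2 hm1 hm2 k1A k2A m1B m2B h1 h2 h3 h4

/-! ### the ladder -/

/-- the part that depends only on `a, b` -/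
def ladB0 (n : ℕ) (R : ℕ → ℕ) (a b : ℕ) (SA SB TA TB : List ℕ) : Bool :=
  (adjB R a b && connB n R SA && connB n R SB && connB n R TA && connB n R TB) &&
  (sepB R SA SB && sepB R SA [b] && sepB R SB [a] && subB SB TB && subB SA TA) &&
  (sepB R TB [a] && sepB R TB SA && sepB R TA [b] && sepB R TA SB)

/-- the part that depends on `g, z` -/
def ladB1 (n : ℕ) (R : ℕ → ℕ) (a b : ℕ) (SA SB TA TB : List ℕ) (g z : ℕ) (C : List ℕ) : Bool :=
  (adjB R g a && adjB R g b && adjB R g z && connB n R C) &&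
  (sepB R SA [g] && sepB R SB [g] && memB z TB && memB z TA) &&
  (sepB R C [g] && sepB R C [a] && sepB R C [b] && sepB R [z] [a] && sepB R [z] [b])

theorem ladB_sound {n : ℕ} {G : SimpleGraph (Fin n)} {R : ℕ → ℕ} (hR : Rows G R) (P : Rep G)
    {a b g z : Fin n} {SA SB TA TB C : List ℕ} (h0 : ladB0 n R a b SA SB TA TB = true)
    (h1 : ladB1 n R a b SA SB TA TB g z C = true) {d1 d2 d3 d4 k k' : Fin n}
    (e1 : G.Adj a d1) (e2 : G.Adj a d2) (e3 : G.Adj b d3) (e4 : G.Adj b d4) (e5 : G.Adj z k)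
    (e6 : G.Adj z k') (m1 : (d1 : ℕ) ∈ SA) (m2 : (d2 : ℕ) ∈ SA) (m3 : (d3 : ℕ) ∈ SB)
    (m4 : (d4 : ℕ) ∈ SB) (m5 : (k : ℕ) ∈ C) (m6 : (k' : ℕ) ∈ C)
    (p1 : P.pos a d1 ≤ P.pos a g) (p2 : P.pos a g ≤ P.pos a d2) (p3 : P.pos b d3 ≤ P.pos b g)
    (p4 : P.pos b g ≤ P.pos b d4) (p5 : P.pos z k ≤ P.pos z g) (p6 : P.pos z g ≤ P.pos z k') :
    False := by
  unfold ladB0 at h0
  unfold ladB1 at h1
  simp only [Bool.and_eq_true] at h0 h1
  obtain ⟨⟨⟨⟨⟨⟨a1, a2⟩, a3⟩, a4⟩, a5⟩, ⟨⟨⟨⟨b1, b2⟩, b3⟩, b4⟩, b5⟩⟩, ⟨⟨⟨c1, c2⟩, c3⟩, c4⟩⟩ := h0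
  obtain ⟨⟨⟨⟨⟨f1, f2⟩, f3⟩, f4⟩, ⟨⟨⟨g1, g2⟩, g3⟩, g4⟩⟩, ⟨⟨⟨⟨i1, i2⟩, i3⟩, i4⟩, i5⟩⟩ := h1
  exact P.ladder (adjB_sound hR a1) (adjB_sound hR f1) (adjB_sound hR f2) (adjB_sound hR f3)
    (connB_sound hR a2) (connB_sound hR a3) (connB_sound hR a4) (connB_sound hR a5)
    (connB_sound hR f4) (sepB_sound hR b1) (sepB_one hR b2) (sepB_one hR b3) (sepB_one hR g1)
    (sepB_one hR g2) (fun v hv => subB_sound b4 v hv) (memB_iff.1 g3) (sepB_one hR c1)
    (sepB_sound hR c2) (fun v hv => subB_sound b5 v hv) (memB_iff.1 g4) (sepB_one hR c3)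
    (sepB_sound hR c4) (sepB_one hR i1) (sepB_one hR i2) (sepB_one hR i3) (sepB_one' hR i4)
    (sepB_one' hR i5) e1 e2 e3 e4 e5 e6 m1 m2 m3 m4 m5 m6 p1 p2 p3 p4 p5 p6

end Pool.Agent.SEG
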