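import Mathlib

/-!
# Segment graphs and reduced genus 0: definitions and the statement

* closed segments in the plane (degenerate segments are allowed);
* rotation systems of a simple graph, genus of a simple graph;
* hypergraphs (finite families of nonempty finite sets), incidence graph, genus, adjacency
  multiplicities, reduced genus of a multigraph given by its multiplicities.
-/

set_option autoImplicit false

open Finset

namespace Pool.Agent.SEG

/-! ### segments -/

/-- The intersection graph of closed segments in the plane. -/
def IsSegmentGraph {V : Type*} (G : SimpleGraph V) : Prop :=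
  ∃ a b : V → ℝ × ℝ, ∀ u v : V, u ≠ v →
    ((segment ℝ (a u) (b u) ∩ segment ℝ (a v) (b v)).Nonempty ↔ G.Adj u v)

/-! ### rotation systems and the genus of a simple graph -/

section genus

variable {W : Type*} (G : SimpleGraph W)

/-- The darts `(x, y)`, `x` adjacent to `y`. -/
abbrev Darts : Type _ := Σ x : W, {y : W // G.Adj x y}

/-- A rotation system: at every vertex a cyclic permutation of the neighbours. -/
structure Rotation where
  next : ∀ x : W, Equiv.Perm {y : W // G.Adj x y}
  cyc : ∀ (x : W) (a b : {y : W // G.Adj x y}), (next x).SameCycle a b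

variable {G}

theorem darts_ext {d d' : Darts G} (h1 : d.1 = d'.1) (h2 : d.2.1 = d'.2.1) : d = d' := by
  obtain ⟨x, y, h⟩ := d
  obtain ⟨x', y', h'⟩ := d'
  simp only at h1 h2
  subst h1
  subst h2
  rfl

/-- The dart that follows `(x, y)` on its face: `(y, z)`, `z` the neighbour of `y` that follows
`x`. -/
def Rotation.fwd (R : Rotation G) (d : Darts G) : Darts G :=
  ⟨d.2.1, R.next d.2.1 ⟨d.1, d.2.2.symm⟩⟩

/-- The dart that precedes `(x, y)` on its face. -/
def Rotation.bwd (R : Rotation G) (d : Darts G) : Darts G :=
  ⟨((R.next d.1).symm d.2).1, ⟨d.1, ((R.next d.1).symm d.2).2.symm⟩⟩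

theorem Rotation.bwd_fwd (R : Rotation G) (d : Darts G) : R.bwd (R.fwd d) = d := by
  obtain ⟨x, y, h⟩ := d
  refine darts_ext ?_ rfl
  show ((R.next y).symm (R.next y ⟨x, h.symm⟩)).1 = x
  rw [Equiv.symm_apply_apply]

theorem Rotation.fwd_bwd (R : Rotation G) (d : Darts G) : R.fwd (R.bwd d) = d := by
  obtain ⟨x, y, h⟩ := d
  refine darts_ext rfl ?_
  show (R.next x ((R.next x).symm ⟨y, h⟩)).1 = y
  rw [Equiv.apply_symm_apply]

/-- The face permutation of the darts: `(x, y) ↦ (y, z)`, `z` the neighbour of `y` that follows
`x`. -/
def Rotation.face (R : Rotation G) : Equiv.Perm (Darts G) where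
  toFun := R.fwd
  invFun := R.bwd
  left_inv := R.bwd_fwd
  right_inv := R.fwd_bwd

/-- The number of faces: the orbits of the face permutation, and one face for every isolated
vertex. -/
noncomputable def Rotation.faces (R : Rotation G) : ℕ :=
  Nat.card (Quotient (Equiv.Perm.SameCycle.setoid R.face)) + Nat.card {x : W // ∀ y, ¬ G.Adj x y}

variable (G)

/-- The genus is at most `g`: there is a rotation system with `V - E + F ≥ 2 c - 2 g`, where `c` is
the number of components.  (By Euler's formula `V - E + F = 2 c - 2 g'` for the surface of the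
rotation system, `g'` its total genus.) -/
def GenusLE (g : ℕ) : Prop :=
  ∃ R : Rotation G, Nat.card G.edgeSet + 2 * Nat.card G.ConnectedComponent ≤
    Nat.card W + R.faces + 2 * g

/-- The genus of a finite simple graph. -/
noncomputable def genus : ℕ := sInf {g | GenusLE G g}

end genus

/-! ### hypergraphs -/

/-- A hypergraph on `V` with `m` edges: a finite family of nonempty finite subsets. -/
structure Hyper (V : Type*) (m : ℕ) where
  edge : Fin m → Finset V
  ne : ∀ i, (edge i).Nonempty

namespace Hyper

variable {V : Type*} {m : ℕ} (H : Hyper V m)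

/-- The incidence relation between vertices and edges. -/
def incRel : V ⊕ Fin m → V ⊕ Fin m → Prop
  | Sum.inl v, Sum.inr i => v ∈ H.edge i
  | Sum.inr i, Sum.inl v => v ∈ H.edge i
  | _, _ => False

theorem incRel_symm : ∀ x y, H.incRel x y → H.incRel y x := by
  rintro (v | i) (w | j) h
  · exact h
  · exact h
  · exact h
  · exact h

theorem incRel_irrefl : ∀ x, ¬ H.incRel x x := by
  rintro (v | i) h
  · exact h
  · exact h

/-- The incidence graph. -/
def inc : SimpleGraph (V ⊕ Fin m) where
  Adj := H.incRel
  symm := ⟨H.incRel_symm⟩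
  loopless := ⟨H.incRel_irrefl⟩

/-- The genus of a hypergraph: the genus of its incidence graph. -/
noncomputable def genus : ℕ := SEG.genus H.inc

/-- The number of edges joining `u` and `v` in the adjacency multigraph. -/
noncomputable def mult (u v : V) : ℕ := Nat.card {i : Fin m // u ∈ H.edge i ∧ v ∈ H.edge i}

end Hyper

/-- The reduced genus of the multigraph with the multiplicities `μ u v`, `u ≠ v`: the least genus
of a hypergraph on the same vertex set with this adjacency multigraph. -/
noncomputable def reducedGenus {V : Type*} (μ : V → V → ℕ) : ℕ :=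
  sInf {g | ∃ (m : ℕ) (H : Hyper V m), (∀ u v : V, u ≠ v → H.mult u v = μ u v) ∧ H.genus = g}

open Classical in
/-- The multiplicities of a simple graph. -/
noncomputable def mulOf {V : Type*} (G : SimpleGraph V) (u v : V) : ℕ := if G.Adj u v then 1 else 0

/-- The reduced genus of the simple graph is `0`: there is a hypergraph of genus `0` with adjacency
multigraph `G`.  (`GenusLE H.inc 0` gives a rotation system of the sphere explicitly.) -/
def ReducedGenusZero {V : Type*} (G : SimpleGraph V) : Prop :=
  ∃ (m : ℕ) (H : Hyper V m), (∀ u v : V, u ≠ v → H.mult u v = mulOf G u v) ∧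
    GenusLE H.inc 0 ∧ H.genus = 0

theorem ReducedGenusZero.reducedGenus {V : Type*} {G : SimpleGraph V} (h : ReducedGenusZero G) :
    reducedGenus (mulOf G) = 0 := by
  obtain ⟨m, H, h1, -, h2⟩ := h
  exact Nat.sInf_eq_zero.2 (Or.inl ⟨m, H, h1, h2⟩)

/-- The negative answer. -/
def NegAnswer : Prop :=
  ∃ (n : ℕ) (G : SimpleGraph (Fin n)), ReducedGenusZero G ∧ ¬ IsSegmentGraph G

end Pool.Agent.SEG
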