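import Mathlib

/-!
# The disproof for segment graphs: data structures and global tables (generated)
-/

set_option autoImplicit false

namespace Pool.Agent.SEGD

/-- data of a certificate for `T1` -/
structure T1D where
  x : ℕ
  y : ℕ
  n : ℕ
  m : ℕ
  r1 : ℕ
  r2 : ℕ
  r3 : ℕ
  r4 : ℕ
  AX : List ℕ
  AY : List ℕ
  AZ : List ℕ
  AW : List ℕ
  R12 : List ℕ
  R23 : List ℕ
  R34 : List ℕ
  R41 : List ℕ

/-- data of one gadget -/
structure GD where
  SA : List ℕ
  SB : List ℕ
  TA : List (List ℕ)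
  TB : List (List ℕ)
  C : List (List ℕ)
  H : List (List ℕ × List ℕ)
  T : List (List T1D)

/-- the seven main vertices -/
def mn : List ℕ := [0, 1, 2, 3, 4, 5, 6]

/-- the ends of the fifteen edges -/
def pq : List (ℕ × ℕ) :=
  [(0, 2), (2, 3), (0, 3), (3, 4), (0, 4), (4, 5), (0, 5), (5, 6), (0, 6), (6, 2), (3, 1), (2, 1),
  (4, 1), (5, 1), (6, 1)]

/-- the guests -/
def gl : List (List ℕ) :=
  [[7, 8, 9, 10, 11, 12], [20, 21, 22, 23, 24, 25], [33, 34, 35, 36, 37, 38], [46, 47, 48, 49, 50,
  51], [59, 60, 61, 62, 63, 64], [72, 73, 74, 75, 76, 77], [85, 86, 87, 88, 89, 90], [98, 99, 100,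
  101, 102, 103], [111, 112, 113, 114, 115, 116], [124, 125, 126, 127, 128, 129], [137, 138, 139,
  140, 141, 142], [150, 151, 152, 153, 154, 155], [163, 164, 165, 166, 167, 168], [176, 177, 178,
  179, 180, 181], [189, 190, 191, 192, 193, 194]]

/-- the inner vertices -/
def zl : List (List ℕ) :=
  [[13, 14, 15, 16, 17, 18], [26, 27, 28, 29, 30, 31], [39, 40, 41, 42, 43, 44], [52, 53, 54, 55,
  56, 57], [65, 66, 67, 68, 69, 70], [78, 79, 80, 81, 82, 83], [91, 92, 93, 94, 95, 96], [104,
  105, 106, 107, 108, 109], [117, 118, 119, 120, 121, 122], [130, 131, 132, 133, 134, 135], [143,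
  144, 145, 146, 147, 148], [156, 157, 158, 159, 160, 161], [169, 170, 171, 172, 173, 174], [182,
  183, 184, 185, 186, 187], [195, 196, 197, 198, 199, 200]]

/-- the mask of the connectors -/
def RM : ℕ :=
  0x154aa552a954aa552a954aa552a954aa552a954aa552a954aa552a954aa552a954aa552a954aa552a954aa552a954aa552a954aa552a954aa552a954aa552a954aa552a954aa552a954aa552a954aa552a954aa552a954aa552a954aa552a954aa552a954aa552a954aa552a954aa552a954aa552a954aaaa955552aaaa55554aaaa9555554aaaaaa5555552aaaaa955555400000000000000000000000000000000000000000000000000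

end Pool.Agent.SEGD
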