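import Pool.Agent.SEG.Dat56
import Pool.Agent.SEG16.Core

/-!
# Segment graphs: from the certificates to the count
-/

set_option autoImplicit false

namespace Pool.Agent.SEG.I56

open SEG16

/-- the number of vertices -/
abbrev nv : ℕ := 1367

/-- the vertex with the local number `k` of the gadget `e` -/
def gl (e k : ℕ) : ℕ := Nat.mod (Nat.mod (Nat.shiftRight (tabL.getD e 0) (Nat.mul 11 k)) 2048) nv

/-- the certificate in global numbers -/
def gD (e : ℕ) (D : T1D) : T1D :=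
  ⟨gl e D.r1, gl e D.r2, gl e D.r3, gl e D.r4, D.AX.map (gl e), D.AY.map (gl e), D.AZ.map (gl e),
    D.AW.map (gl e), D.R12.map (gl e), D.R23.map (gl e), D.R34.map (gl e), D.R41.map (gl e)⟩

/-- all connectors of `z` are in `A` -/
def covB (R : ℕ → ℕ) (z : ℕ) (A : List ℕ) : Bool :=
  Nat.beq (Nat.lor (Nat.land (R z) RM) (msk A)) (msk A)

/-- check of one `K33` certificate -/
def recB (R : ℕ → ℕ) (e : ℕ) (r : Rec) : Bool :=
  t1B nv R (gl e (8 + r.i)) (gl e r.x) (gl e r.y) (gl e r.n) (gl e r.m) (gD e r.D) &&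
    (RM.testBit (gl e r.n) && RM.testBit (gl e r.m))

/-- first ends of the inner edges -/
def zsL : List ℕ := [0, 1, 2, 3, 4, 5, 0]

/-- second ends of the inner edges -/
def ztL : List ℕ := [1, 2, 3, 4, 5, 0, 3]

/-- check of one inner edge -/
def edgB (R : ℕ → ℕ) (e j : ℕ) : Bool :=
  hzB nv R (gl e (8 + zsL.getD j 0)) (gl e (8 + ztL.getD j 0)) ((HL.getD j ([], [])).1.map (gl e))
      ((HL.getD j ([], [])).2.map (gl e)) &&
    (covB R (gl e (8 + zsL.getD j 0)) ((HL.getD j ([], [])).1.map (gl e)) &&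
      covB R (gl e (8 + ztL.getD j 0)) ((HL.getD j ([], [])).2.map (gl e)))

/-- check of the ladder -/
def ladB (R : ℕ → ℕ) (e : ℕ) : Bool :=
  ladB0 nv R (gl e 0) (gl e 1) (SAL.getD e []) (SBL.getD e []) (TAL.getD e []) (TBL.getD e [])

/-- check of the ladder at one guest -/
def gueB (R : ℕ → ℕ) (e i : ℕ) : Bool :=
  ladB1 nv R (gl e 0) (gl e 1) (SAL.getD e []) (SBL.getD e []) (TAL.getD e []) (TBL.getD e [])
      (gl e (2 + i)) (gl e (8 + i)) ((CL.getD i []).map (gl e)) &&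
    covB R (gl e (8 + i)) ((CL.getD i []).map (gl e))

/-- the guests of the gadget `f` at the main vertex `a` are in `S` -/
def memG (R : ℕ → ℕ) (a : ℕ) (S : List ℕ) (f : ℕ) : Bool :=
  (List.range 6).all fun i => memB (gl f (2 + i)) S && adjB R a (gl f (2 + i))

/-- check of the membership of the other guests -/
def othB (R : ℕ → ℕ) (e : ℕ) : Bool :=
  Nat.beq (gl e 0) (pL.getD e 0) && Nat.beq (gl e 1) (qL.getD e 0) &&
  (List.range 15).all fun f => Nat.beq f e ||
    ((!(Nat.beq (pL.getD e 0) (pL.getD f 0) || Nat.beq (pL.getD e 0) (qL.getD f 0)) ||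
      memG R (gl e 0) (SAL.getD e []) f) &&
    (!(Nat.beq (qL.getD e 0) (pL.getD f 0) || Nat.beq (qL.getD e 0) (qL.getD f 0)) ||
      memG R (gl e 1) (SBL.getD e []) f))

/-- the check of the gadget `e` -/
def gadB (R : ℕ → ℕ) (e : ℕ) : Bool :=
  ((T1L.all fun r => recB R e r) && (List.range 7).all fun j => edgB R e j) &&
    ((ladB R e && (List.range 6).all fun i => gueB R e i) && othB R e)

/-- the vertex of a number -/
def vx (k : ℕ) : Fin nv := ⟨k % nv, Nat.mod_lt _ (by decide)⟩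

theorem vx_gl (e k : ℕ) : ((vx (gl e k) : Fin nv) : ℕ) = gl e k := by
  show gl e k % nv = gl e k
  unfold gl
  exact Nat.mod_mod _ _

/-- the main vertices -/
def main (b : Fin 7) : Fin nv := ⟨b, Nat.lt_of_lt_of_le b.2 (by decide)⟩

/-- the first main of a gadget -/
def pF (e : Fin 15) : Fin 7 := ⟨pL.getD e 0 % 7, Nat.mod_lt _ (by decide)⟩

/-- the second main of a gadget -/
def qF (e : Fin 15) : Fin 7 := ⟨qL.getD e 0 % 7, Nat.mod_lt _ (by decide)⟩

/-- the guests -/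
def gF (e : Fin 15) (i : Fin 6) : Fin nv := vx (gl e (2 + i))

/-- the inner vertices -/
def zF (e : Fin 15) (i : Fin 6) : Fin nv := vx (gl e (8 + i))

/-- the local number of an end -/
def lc : Fin 6 ⊕ Fin 6 → ℕ
  | Sum.inl i => 2 + i
  | Sum.inr i => 8 + i

theorem elim_lc (e : Fin 15) (o : Fin 6 ⊕ Fin 6) : Sum.elim (gF e) (zF e) o = vx (gl e (lc o)) := by
  rcases o with i | i <;> rfl

theorem cover : ∀ i : Fin 6, ∀ o o' : Fin 6 ⊕ Fin 6, nbz i o → nbz i o' → o ≠ o' →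
    ∃ r ∈ T1L, r.i = i ∧ ((r.x = lc o ∧ r.y = lc o') ∨ (r.x = lc o' ∧ r.y = lc o)) := by
  decide +kernel

theorem zsL_eq : ∀ j : Fin 7, zsL.getD j 0 = (zs j : ℕ) := by decide

theorem ztL_eq : ∀ j : Fin 7, ztL.getD j 0 = (zt j : ℕ) := by decide

theorem pL_eq : ∀ e : Fin 15, pL.getD e 0 = (pF e : ℕ) := by decide

theorem qL_eq : ∀ e : Fin 15, qL.getD e 0 = (qF e : ℕ) := by decide

theorem deg : ∀ b : Fin 7, ∃ e, b = pF e ∨ b = qF e := by decide

/-- the connectors -/
def con (G : SimpleGraph (Fin nv)) (v n : Fin nv) : Prop := G.Adj v n ∧ RM.testBit n = true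

theorem covB_sound {G : SimpleGraph (Fin nv)} {R : ℕ → ℕ} (hR : Rows G R) {z k : Fin nv}
    {A : List ℕ} (h : covB R z A = true) (hk : con G z k) : (k : ℕ) ∈ A := by
  have h1 := Nat.eq_of_beq_eq_true h
  rw [← bit_msk, ← h1, bit_lor, bit_land]
  exact Or.inl ⟨((hR z k).1 hk.1).2, hk.2⟩

theorem gad_spec {R : ℕ → ℕ} {e : ℕ} (h : gadB R e = true) :
    (∀ r ∈ T1L, recB R e r = true) ∧ (∀ j < 7, edgB R e j = true) ∧ ladB R e = true ∧
      (∀ i < 6, gueB R e i = true) ∧ othB R e = true := by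
  unfold gadB at h
  simp only [Bool.and_eq_true, List.all_eq_true, List.mem_range] at h
  exact ⟨h.1.1, h.1.2, h.2.1.1, h.2.1.2, h.2.2⟩

/-- **no representation** -/
theorem not_seg {G : SimpleGraph (Fin nv)} {R : ℕ → ℕ} (hR : Rows G R)
    (h : ∀ e < 15, gadB R e = true) : ¬ IsSegmentGraph G := by
  intro hseg
  obtain ⟨P⟩ := Rep.exists hseg
  have hS : ∀ e : Fin 15, _ := fun e => gad_spec (h e e.2)
  have va : ∀ e : Fin 15, vx (gl e 0) = main (pF e) ∧ vx (gl e 1) = main (qF e) := by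
    intro e
    have h1 := (hS e).2.2.2.2
    unfold othB at h1
    simp only [Bool.and_eq_true] at h1
    constructor
    · refine Fin.ext ?_
      rw [vx_gl, Nat.eq_of_beq_eq_true h1.1.1, pL_eq]
      rfl
    · refine Fin.ext ?_
      rw [vx_gl, Nat.eq_of_beq_eq_true h1.1.2, qL_eq]
      rfl
  have oth : ∀ e f : Fin 15, f ≠ e →
      ((pF e = pF f ∨ pF e = qF f) → ∀ i : Fin 6, (gF f i : ℕ) ∈ SAL.getD e [] ∧
        G.Adj (main (pF e)) (gF f i)) ∧
      ((qF e = pF f ∨ qF e = qF f) → ∀ i : Fin 6, (gF f i : ℕ) ∈ SBL.getD e [] ∧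
        G.Adj (main (qF e)) (gF f i)) := by
    intro e f hfe
    have h1 := (hS e).2.2.2.2
    unfold othB at h1
    simp only [Bool.and_eq_true, List.all_eq_true, List.mem_range, Bool.or_eq_true,
      Bool.not_eq_true', Bool.or_eq_false_iff] at h1
    have h2 := h1.2 f f.2
    have h3 : ¬ (Nat.beq f e = true) := fun h3 => hfe (Fin.ext (Nat.eq_of_beq_eq_true h3))
    rcases h2 with h2 | h2
    · exact absurd h2 h3
    · have key : ∀ {a : Fin nv} {S : List ℕ}, memG R a S f = true → ∀ i : Fin 6,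
          (gF f i : ℕ) ∈ S ∧ G.Adj a (gF f i) := by
        intro a S h4 i
        unfold memG at h4
        simp only [List.all_eq_true, List.mem_range, Bool.and_eq_true] at h4
        have h5 := h4 i i.2
        have h6 : ((gF f i : Fin nv) : ℕ) = gl f (2 + i) := vx_gl _ _
        refine ⟨?_, adjB_sound hR ?_⟩
        · rw [h6]
          exact memB_iff.1 h5.1
        · rw [h6]
          exact h5.2
      have beq : ∀ {x y : ℕ}, x = y → ¬ (Nat.beq x y = false) := by
        intro x y hxy h7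
        rw [hxy, Nat.beq_refl] at h7
        exact Bool.noConfusion h7
      constructor
      · intro h4
        rcases h2.1 with h5 | h5
        · exfalso
          rcases h4 with h4 | h4
          · exact beq (by rw [pL_eq, pL_eq, h4]) h5.1
          · exact beq (by rw [pL_eq, qL_eq, h4]) h5.2
        · have h6 := key (a := vx (gl e 0)) (S := SAL.getD e []) (by rw [vx_gl]; exact h5)
          rw [(va e).1] at h6
          exact h6
      · intro h4
        rcases h2.2 with h5 | h5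
        · exfalso
          rcases h4 with h4 | h4
          · exact beq (by rw [qL_eq, pL_eq, h4]) h5.1
          · exact beq (by rw [qL_eq, qL_eq, h4]) h5.2
        · have h6 := key (a := vx (gl e 1)) (S := SBL.getD e []) (by rw [vx_gl]; exact h5)
          rw [(va e).2] at h6
          exact h6
  refine core P.pos (con G) main pF qF (fun e => List.ofFn (gF e)) gF zF ?_ deg ?_ ?_ ?_
  · intro e i
    exact (List.mem_ofFn' _ _).2 ⟨i, rfl⟩
  · -- the ladder
    intro e i e1 e2 e3 e4 n1 n2 n3 n4 c1 c2 c3 c4 d1 m1 d2 m2 d3 m3 d4 m4 k k' hk hk'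
      p1 p2 p3 p4 p5 p6
    obtain ⟨i1, rfl⟩ := (List.mem_ofFn' _ _).1 m1
    obtain ⟨i2, rfl⟩ := (List.mem_ofFn' _ _).1 m2
    obtain ⟨i3, rfl⟩ := (List.mem_ofFn' _ _).1 m3
    obtain ⟨i4, rfl⟩ := (List.mem_ofFn' _ _).1 m4
    have a1 := (oth e e1 n1).1 c1 i1
    have a2 := (oth e e2 n2).1 c2 i2
    have a3 := (oth e e3 n3).2 c3 i3
    have a4 := (oth e e4 n4).2 c4 i4
    obtain ⟨-, -, h3, h4, -⟩ := hS e
    have h5 := h4 i i.2
    unfold gueB at h5
    rw [Bool.and_eq_true] at h5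
    have eg : ((gF e i : Fin nv) : ℕ) = gl e (2 + i) := vx_gl _ _
    have ez : ((zF e i : Fin nv) : ℕ) = gl e (8 + i) := vx_gl _ _
    have ea : ((main (pF e) : Fin nv) : ℕ) = gl e 0 := by rw [← (va e).1, vx_gl]
    have eb : ((main (qF e) : Fin nv) : ℕ) = gl e 1 := by rw [← (va e).2, vx_gl]
    have b1 : (k : ℕ) ∈ (CL.getD i []).map (gl e) := covB_sound hR (by rw [ez]; exact h5.2) hk
    have b2 : (k' : ℕ) ∈ (CL.getD i []).map (gl e) := covB_sound hR (by rw [ez]; exact h5.2) hk'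
    exact ladB_sound hR P (a := main (pF e)) (b := main (qF e)) (g := gF e i) (z := zF e i)
      (SA := SAL.getD e []) (SB := SBL.getD e []) (TA := TAL.getD e []) (TB := TBL.getD e [])
      (C := (CL.getD i []).map (gl e)) (by rw [ea, eb]; exact h3)
      (by rw [ea, eb, eg, ez]; exact h5.1) a1.2 a2.2 a3.2 a4.2 hk.1 hk'.1 a1.1 a2.1 a3.1 a4.1
      b1 b2 p1 p2 p3 p4 p5 p6
  · -- the inner edges
    intro e j k k' l l' hk hk' hl hl' p1 p2 p3 p4
    obtain ⟨-, h2, -⟩ := hS e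
    have h3 := h2 j j.2
    unfold edgB at h3
    simp only [Bool.and_eq_true] at h3
    rw [zsL_eq, ztL_eq] at h3
    have es : ((zF e (zs j) : Fin nv) : ℕ) = gl e (8 + (zs j : ℕ)) := vx_gl _ _
    have et : ((zF e (zt j) : Fin nv) : ℕ) = gl e (8 + (zt j : ℕ)) := vx_gl _ _
    exact hzB_sound hR P (a := zF e (zs j)) (u := zF e (zt j)) (by rw [es, et]; exact h3.1)
      hk.1 hk'.1 hl.1 hl'.1 (covB_sound hR (by rw [es]; exact h3.2.1) hk)
      (covB_sound hR (by rw [es]; exact h3.2.1) hk') (covB_sound hR (by rw [et]; exact h3.2.2) hl)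
      (covB_sound hR (by rw [et]; exact h3.2.2) hl') p1 p2 p3 p4
  · -- the `K33` certificates
    intro e i o o' ho ho' hoo
    obtain ⟨h1, -⟩ := hS e
    obtain ⟨r, hr, hri, hxy⟩ := cover i o o' ho ho' hoo
    have h2 := h1 r hr
    unfold recB at h2
    simp only [Bool.and_eq_true] at h2
    obtain ⟨h3, h4, h5⟩ := h2
    rw [elim_lc, elim_lc]
    have ez : ((zF e i : Fin nv) : ℕ) = gl e (8 + r.i) := by
      rw [hri]
      exact vx_gl _ _
    have h6 := t1B_pos hR P (v := zF e i) (x := vx (gl e r.x)) (y := vx (gl e r.y))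
      (z := vx (gl e r.n)) (w := vx (gl e r.m)) (D := gD e r.D)
      (by rw [ez, vx_gl, vx_gl, vx_gl, vx_gl]; exact h3)
    have h7 : G.Adj (zF e i) (vx (gl e r.n)) ∧ G.Adj (zF e i) (vx (gl e r.m)) := by
      obtain ⟨C⟩ := t1B_sound hR (v := zF e i) (x := vx (gl e r.x)) (y := vx (gl e r.y))
        (z := vx (gl e r.n)) (w := vx (gl e r.m)) (D := gD e r.D)
        (by rw [ez, vx_gl, vx_gl, vx_gl, vx_gl]; exact h3)
      exact ⟨C.hz, C.hw⟩
    have c1 : con G (zF e i) (vx (gl e r.n)) := ⟨h7.1, by rw [vx_gl]; exact h4⟩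
    have c2 : con G (zF e i) (vx (gl e r.m)) := ⟨h7.2, by rw [vx_gl]; exact h5⟩
    rcases hxy with ⟨hx, hy⟩ | ⟨hx, hy⟩
    · rw [← hx, ← hy]
      exact ⟨fun h => h6.2 ⟨h.1 _ c1, h.1 _ c2, h.2 _ c1, h.2 _ c2⟩,
        fun h => h6.1 ⟨h.1 _ c1, h.1 _ c2, h.2 _ c1, h.2 _ c2⟩⟩
    · rw [← hx, ← hy]
      exact ⟨fun h => h6.2 ⟨h.2 _ c1, h.2 _ c2, h.1 _ c1, h.1 _ c2⟩,
        fun h => h6.1 ⟨h.2 _ c1, h.2 _ c2, h.1 _ c1, h.1 _ c2⟩⟩

end Pool.Agent.SEG.I56
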