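import Pool.Agent.SEG.Defs

/-!
# Segment graphs and reduced genus 0: certificates for planarity

A hypergraph is given by a table of incidences `i < I`, sorted lexicographically by
`(vi i, ei i)`; `nV`, `nE` are the rotations at the vertex and at the hyperedge, `pV`, `pE` their
inverses, `kV`, `kE` ranks in the cycles, `lV i` and `lE i` the labels of the faces of the darts
from the vertex to the hyperedge and back.
-/

set_option autoImplicit false

open Finset

namespace Pool.Agent.SEG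

/-- The tables. -/
structure PTab where
  I : ℕ
  F : ℕ
  vi : ℕ → ℕ
  ei : ℕ → ℕ
  nV : ℕ → ℕ
  nE : ℕ → ℕ
  pV : ℕ → ℕ
  pE : ℕ → ℕ
  kV : ℕ → ℕ
  kE : ℕ → ℕ
  sV : ℕ → ℕ
  sE : ℕ → ℕ
  lV : ℕ → ℕ
  lE : ℕ → ℕ
  rep : ℕ → ℕ
  dV : ℕ → ℕ
  dE : ℕ → ℕ
  cV : ℕ → ℕ
  cE : ℕ → ℕ

/-- The conditions on the tables, for `n` vertices and `m` hyperedges. -/
structure PTab.Ok (t : PTab) (n m : ℕ) : Prop where
  euler : t.I + 2 ≤ n + m + t.F
  lt : ∀ i < t.I, t.vi i < n ∧ t.ei i < m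
  lex : ∀ i < t.I, i + 1 < t.I →
    t.vi i < t.vi (i + 1) ∨ (t.vi i = t.vi (i + 1) ∧ t.ei i < t.ei (i + 1))
  nextV : ∀ i < t.I, t.nV i < t.I ∧ t.vi (t.nV i) = t.vi i ∧ t.pV (t.nV i) = i
  nextE : ∀ i < t.I, t.nE i < t.I ∧ t.ei (t.nE i) = t.ei i ∧ t.pE (t.nE i) = i
  prevV : ∀ i < t.I, t.pV i < t.I ∧ t.vi (t.pV i) = t.vi i ∧ t.nV (t.pV i) = i
  prevE : ∀ i < t.I, t.pE i < t.I ∧ t.ei (t.pE i) = t.ei i ∧ t.nE (t.pE i) = i
  rankV : ∀ i < t.I, (t.kV i = 0 ∧ i = t.sV (t.vi i)) ∨ t.kV (t.pV i) + 1 = t.kV i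
  rankE : ∀ i < t.I, (t.kE i = 0 ∧ i = t.sE (t.ei i)) ∨ t.kE (t.pE i) + 1 = t.kE i
  lab : ∀ i < t.I, t.lV i < t.F ∧ t.lE i = t.lV (t.nV i) ∧ t.lV i = t.lE (t.nE i)
  rep : ∀ f < t.F, t.rep f < t.I ∧ t.lV (t.rep f) = f
  conV : ∀ v < n, v = 0 ∨ (t.cV v < t.I ∧ t.vi (t.cV v) = v ∧ t.dE (t.ei (t.cV v)) < t.dV v)
  conE : ∀ e < m, t.cE e < t.I ∧ t.ei (t.cE e) = e ∧ t.dV (t.vi (t.cE e)) < t.dE e

/-- The vertex set of the hyperedge `e`. -/
def PTab.edge (t : PTab) (n : ℕ) (e : ℕ) : Finset (Fin n) :=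
  Finset.univ.filter fun v => ∃ i < t.I, t.vi i = v ∧ t.ei i = e

theorem PTab.mem_edge {t : PTab} {n e : ℕ} {v : Fin n} :
    v ∈ t.edge n e ↔ ∃ i < t.I, t.vi i = v ∧ t.ei i = e := by
  unfold PTab.edge
  rw [Finset.mem_filter]
  exact ⟨fun h => h.2, fun h => ⟨Finset.mem_univ _, h⟩⟩

/-- The hypergraph of the tables. -/
def PTab.hyper (t : PTab) {n m : ℕ} (h : t.Ok n m) : Hyper (Fin n) m where
  edge e := t.edge n e
  ne e := by
    obtain ⟨h1, h2, -⟩ := h.conE e e.2
    exact ⟨⟨t.vi (t.cE e), (h.lt _ h1).1⟩, PTab.mem_edge.2 ⟨_, h1, rfl, h2⟩⟩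

namespace PTab

variable {t : PTab} {n m : ℕ}

theorem lexlt (h : t.Ok n m) {i j : ℕ} (hij : i < j) (hj : j < t.I) :
    t.vi i < t.vi j ∨ (t.vi i = t.vi j ∧ t.ei i < t.ei j) := by
  induction j with
  | zero => omega
  | succ j ih =>
    have h1 := h.lex j (by omega) hj
    rcases Nat.lt_or_ge i j with h2 | h2
    · have h3 := ih h2 (by omega)
      omega
    · have : i = j := by omega
      subst this
      exact h1

theorem inj (h : t.Ok n m) {i j : ℕ} (hi : i < t.I) (hj : j < t.I) (h1 : t.vi i = t.vi j)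
    (h2 : t.ei i = t.ei j) : i = j := by
  rcases Nat.lt_trichotomy i j with h3 | h3 | h3
  · have := lexlt h h3 hj
    omega
  · exact h3
  · have := lexlt h h3 hi
    omega

/-- the incidences at a vertex -/
abbrev IV (t : PTab) (v : ℕ) : Type := {i : Fin t.I // t.vi i = v}

/-- the incidences at a hyperedge -/
abbrev IE (t : PTab) (e : ℕ) : Type := {i : Fin t.I // t.ei i = e}

/-- the rotation of the incidences at a vertex -/
def sigV (h : t.Ok n m) (v : ℕ) : Equiv.Perm (t.IV v) where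
  toFun i := ⟨⟨t.nV i.1, (h.nextV _ i.1.2).1⟩, (h.nextV _ i.1.2).2.1.trans i.2⟩
  invFun i := ⟨⟨t.pV i.1, (h.prevV _ i.1.2).1⟩, (h.prevV _ i.1.2).2.1.trans i.2⟩
  left_inv i := Subtype.ext (Fin.ext (h.nextV _ i.1.2).2.2)
  right_inv i := Subtype.ext (Fin.ext (h.prevV _ i.1.2).2.2)

/-- the rotation of the incidences at a hyperedge -/
def sigE (h : t.Ok n m) (e : ℕ) : Equiv.Perm (t.IE e) where
  toFun i := ⟨⟨t.nE i.1, (h.nextE _ i.1.2).1⟩, (h.nextE _ i.1.2).2.1.trans i.2⟩
  invFun i := ⟨⟨t.pE i.1, (h.prevE _ i.1.2).1⟩, (h.prevE _ i.1.2).2.1.trans i.2⟩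
  left_inv i := Subtype.ext (Fin.ext (h.nextE _ i.1.2).2.2)
  right_inv i := Subtype.ext (Fin.ext (h.prevE _ i.1.2).2.2)

theorem sigV_same (h : t.Ok n m) (v : ℕ) (a b : t.IV v) : (sigV h v).SameCycle a b := by
  have key : ∀ k : ℕ, ∀ c : t.IV v, t.kV c.1 = k → ∃ (d : t.IV v) (_ : (d.1 : ℕ) = t.sV v),
      (sigV h v).SameCycle d c := by
    intro k
    induction k with
    | zero =>
      intro c hc
      rcases h.rankV c.1 c.1.2 with h1 | h1
      · refine ⟨c, ?_, Equiv.Perm.SameCycle.refl _ _⟩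
        rw [h1.2, c.2]
      · omega
    | succ k ih =>
      intro c hc
      rcases h.rankV c.1 c.1.2 with h1 | h1
      · omega
      · obtain ⟨d, hd, hs⟩ := ih ((sigV h v).symm c) (by
          show t.kV (t.pV c.1) = k
          omega)
        refine ⟨d, hd, hs.trans ?_⟩
        refine ⟨1, ?_⟩
        rw [zpow_one, Equiv.apply_symm_apply]
  obtain ⟨d, hd, hs⟩ := key _ a rfl
  obtain ⟨d', hd', hs'⟩ := key _ b rfl
  have : d = d' := Subtype.ext (Fin.ext (hd.trans hd'.symm))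
  subst this
  exact hs.symm.trans hs'

theorem sigE_same (h : t.Ok n m) (v : ℕ) (a b : t.IE v) : (sigE h v).SameCycle a b := by
  have key : ∀ k : ℕ, ∀ c : t.IE v, t.kE c.1 = k → ∃ (d : t.IE v) (_ : (d.1 : ℕ) = t.sE v),
      (sigE h v).SameCycle d c := by
    intro k
    induction k with
    | zero =>
      intro c hc
      rcases h.rankE c.1 c.1.2 with h1 | h1
      · refine ⟨c, ?_, Equiv.Perm.SameCycle.refl _ _⟩
        rw [h1.2, c.2]
      · omega
    | succ k ih =>
      intro c hc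
      rcases h.rankE c.1 c.1.2 with h1 | h1
      · omega
      · obtain ⟨d, hd, hs⟩ := ih ((sigE h v).symm c) (by
          show t.kE (t.pE c.1) = k
          omega)
        refine ⟨d, hd, hs.trans ?_⟩
        refine ⟨1, ?_⟩
        rw [zpow_one, Equiv.apply_symm_apply]
  obtain ⟨d, hd, hs⟩ := key _ a rfl
  obtain ⟨d', hd', hs'⟩ := key _ b rfl
  have : d = d' := Subtype.ext (Fin.ext (hd.trans hd'.symm))
  subst this
  exact hs.symm.trans hs'

/-- SameCycle for transported permutations -/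
theorem same_congr {A B : Type*} (f : A ≃ B) (σ : Equiv.Perm A)
    (h : ∀ a b, σ.SameCycle a b) (x y : B) :
    Equiv.Perm.SameCycle (((f.symm.trans σ).trans f : B ≃ B)) x y := by
  set τ : Equiv.Perm B := (f.symm.trans σ).trans f with hτ
  have h0 : ∀ z, τ (f z) = f (σ z) := by
    intro z
    rw [hτ]
    show f (σ (f.symm (f z))) = f (σ z)
    rw [Equiv.symm_apply_apply]
  have h1 : ∀ k : ℕ, ∀ z, (τ ^ k) (f z) = f ((σ ^ k) z) := by
    intro k
    induction k with
    | zero =>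
      intro z
      rfl
    | succ k ih =>
      intro z
      rw [pow_succ, pow_succ, Equiv.Perm.mul_apply, Equiv.Perm.mul_apply, h0, ih]
  obtain ⟨k, hk⟩ := h (f.symm x) (f.symm y)
  rcases Int.eq_nat_or_neg k with ⟨j, rfl | rfl⟩
  · refine ⟨j, ?_⟩
    rw [zpow_natCast] at hk ⊢
    have h2 := h1 j (f.symm x)
    rw [hk, Equiv.apply_symm_apply, Equiv.apply_symm_apply] at h2
    exact h2
  · have h3 : (σ ^ j) (f.symm y) = f.symm x := by
      rw [← hk, zpow_neg, zpow_natCast, Equiv.Perm.inv_def, Equiv.apply_symm_apply]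
    refine Equiv.Perm.SameCycle.symm ⟨j, ?_⟩
    rw [zpow_natCast]
    have h2 := h1 j (f.symm y)
    rw [h3, Equiv.apply_symm_apply, Equiv.apply_symm_apply] at h2
    exact h2

variable (h : t.Ok n m)

/-- neighbours of a vertex in the incidence graph -/
noncomputable def fV (v : Fin n) :
    t.IV v ≃ {y : Fin n ⊕ Fin m // (t.hyper h).inc.Adj (Sum.inl v) y} :=
  Equiv.ofBijective
    (fun i => ⟨Sum.inr ⟨t.ei i.1, (h.lt _ i.1.2).2⟩, mem_edge.2 ⟨i.1, i.1.2, i.2, rfl⟩⟩) (by
      constructor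
      · intro i j hij
        have h1 := congrArg Subtype.val hij
        simp only [Sum.inr.injEq, Fin.mk.injEq] at h1
        exact Subtype.ext (Fin.ext (inj h i.1.2 j.1.2 (i.2.trans j.2.symm) h1))
      · rintro ⟨y, hy⟩
        rcases y with w | e
        · exact absurd hy id
        · obtain ⟨i, hi, h1, h2⟩ := mem_edge.1 hy
          exact ⟨⟨⟨i, hi⟩, h1⟩, Subtype.ext (congrArg Sum.inr (Fin.ext h2))⟩)

/-- neighbours of a hyperedge in the incidence graph -/
noncomputable def fE (e : Fin m) :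
    t.IE e ≃ {y : Fin n ⊕ Fin m // (t.hyper h).inc.Adj (Sum.inr e) y} :=
  Equiv.ofBijective
    (fun i => ⟨Sum.inl ⟨t.vi i.1, (h.lt _ i.1.2).1⟩, mem_edge.2 ⟨i.1, i.1.2, rfl, i.2⟩⟩) (by
      constructor
      · intro i j hij
        have h1 := congrArg Subtype.val hij
        simp only [Sum.inl.injEq, Fin.mk.injEq] at h1
        exact Subtype.ext (Fin.ext (inj h i.1.2 j.1.2 h1 (i.2.trans j.2.symm)))
      · rintro ⟨y, hy⟩
        rcases y with w | e'
        · obtain ⟨i, hi, h1, h2⟩ := mem_edge.1 hy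
          exact ⟨⟨⟨i, hi⟩, h2⟩, Subtype.ext (congrArg Sum.inl (Fin.ext h1))⟩
        · exact absurd hy id)

/-- the rotation system -/
noncomputable def rot : Rotation (t.hyper h).inc where
  next x := match x with
    | Sum.inl v => ((fV h v).symm.trans (sigV h v)).trans (fV h v)
    | Sum.inr e => ((fE h e).symm.trans (sigE h e)).trans (fE h e)
  cyc x a b := by
    rcases x with v | e
    · exact same_congr (fV h v) (sigV h v) (sigV_same h v) a b
    · exact same_congr (fE h e) (sigE h e) (sigE_same h e) a b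

/-- the label of a dart -/
noncomputable def label (d : Darts (t.hyper h).inc) : ℕ :=
  match d with
  | ⟨Sum.inl v, y⟩ => t.lV ((fV h v).symm y).1
  | ⟨Sum.inr e, y⟩ => t.lE ((fE h e).symm y).1

theorem fV_symm (v : Fin n) (i : ℕ) (hi : i < t.I) (hv : t.vi i = v)
    (hy : (t.hyper h).inc.Adj (Sum.inl v) (Sum.inr ⟨t.ei i, (h.lt _ hi).2⟩)) :
    (((fV h v).symm ⟨_, hy⟩).1 : ℕ) = i := by
  have h1 : (fV h v) ⟨⟨i, hi⟩, hv⟩ = ⟨_, hy⟩ := rfl
  rw [← h1, Equiv.symm_apply_apply]

theorem fE_symm (e : Fin m) (i : ℕ) (hi : i < t.I) (he : t.ei i = e)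
    (hy : (t.hyper h).inc.Adj (Sum.inr e) (Sum.inl ⟨t.vi i, (h.lt _ hi).1⟩)) :
    (((fE h e).symm ⟨_, hy⟩).1 : ℕ) = i := by
  have h1 : (fE h e) ⟨⟨i, hi⟩, he⟩ = ⟨_, hy⟩ := rfl
  rw [← h1, Equiv.symm_apply_apply]

theorem label_face (d : Darts (t.hyper h).inc) : label h ((rot h).face d) = label h d := by
  obtain ⟨x, y, hxy⟩ := d
  rcases x with v | e
  · rcases y with w | e
    · exact absurd hxy id
    · obtain ⟨i, hi, h1, h2⟩ := mem_edge.1 (show v ∈ t.edge n e from hxy)
      have hv : v = ⟨t.vi i, (h.lt _ hi).1⟩ := Fin.ext h1.symm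
      have he : e = ⟨t.ei i, (h.lt _ hi).2⟩ := Fin.ext h2.symm
      subst hv
      subst he
      show t.lE ((fE h _).symm ((fE h _) ((sigE h _) ((fE h _).symm ⟨_, _⟩)))).1 =
        t.lV ((fV h _).symm ⟨_, _⟩).1
      rw [Equiv.symm_apply_apply]
      show t.lE (t.nE ((fE h _).symm ⟨_, _⟩).1) = _
      rw [fV_symm h _ i hi rfl, fE_symm h _ i hi rfl]
      exact (h.lab i hi).2.2.symm
  · rcases y with v | e'
    · obtain ⟨i, hi, h1, h2⟩ := mem_edge.1 (show v ∈ t.edge n e from hxy)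
      have hv : v = ⟨t.vi i, (h.lt _ hi).1⟩ := Fin.ext h1.symm
      have he : e = ⟨t.ei i, (h.lt _ hi).2⟩ := Fin.ext h2.symm
      subst hv
      subst he
      show t.lV ((fV h _).symm ((fV h _) ((sigV h _) ((fV h _).symm ⟨_, _⟩)))).1 =
        t.lE ((fE h _).symm ⟨_, _⟩).1
      rw [Equiv.symm_apply_apply]
      show t.lV (t.nV ((fV h _).symm ⟨_, _⟩).1) = _
      rw [fV_symm h _ i hi rfl, fE_symm h _ i hi rfl]
      exact (h.lab i hi).2.1.symm
    · exact absurd hxy id

theorem faces_ge : t.F ≤ (rot h).faces := by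
  have hfin : Finite (Quotient (Equiv.Perm.SameCycle.setoid (rot h).face)) := Quotient.finite _
  have key : ∀ d d' : Darts (t.hyper h).inc, (rot h).face.SameCycle d d' →
      label h d = label h d' := by
    rintro d d' ⟨k, hk⟩
    have h1 : ∀ k : ℕ, ∀ d, label h (((rot h).face ^ k) d) = label h d := by
      intro k
      induction k with
      | zero =>
        intro d
        rfl
      | succ k ih =>
        intro d
        rw [pow_succ, Equiv.Perm.mul_apply, ih, label_face]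
    rcases Int.eq_nat_or_neg k with ⟨j, rfl | rfl⟩
    · rw [← hk, zpow_natCast, h1]
    · have h2 : ((rot h).face ^ j) d' = d := by
        rw [← hk, zpow_neg, zpow_natCast, Equiv.Perm.inv_def, Equiv.apply_symm_apply]
      rw [← h2, h1]
  have hlab : ∀ f : Fin t.F, ∃ d : Darts (t.hyper h).inc, label h d = f := by
    intro f
    obtain ⟨h1, h2⟩ := h.rep f f.2
    refine ⟨⟨Sum.inl ⟨t.vi (t.rep f), (h.lt _ h1).1⟩,
      ⟨Sum.inr ⟨t.ei (t.rep f), (h.lt _ h1).2⟩, mem_edge.2 ⟨_, h1, rfl, rfl⟩⟩⟩, ?_⟩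
    show t.lV ((fV h _).symm ⟨_, _⟩).1 = _
    rw [fV_symm h _ _ h1 rfl]
    exact h2
  choose g hg using hlab
  have hinj : Function.Injective fun f : Fin t.F =>
      (Quotient.mk (Equiv.Perm.SameCycle.setoid (rot h).face) (g f)) := by
    intro f f' hff
    have h1 := Quotient.exact hff
    have h2 := key _ _ h1
    rw [hg, hg] at h2
    exact Fin.ext h2
  have h3 := Nat.card_le_card_of_injective _ hinj
  rw [Nat.card_eq_fintype_card, Fintype.card_fin] at h3
  unfold Rotation.faces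
  omega

theorem edges_le : Nat.card (t.hyper h).inc.edgeSet ≤ t.I := by
  have hsurj : Function.Surjective (fun i : Fin t.I =>
      (⟨s(Sum.inl ⟨t.vi i, (h.lt _ i.2).1⟩, Sum.inr ⟨t.ei i, (h.lt _ i.2).2⟩),
        mem_edge.2 ⟨i, i.2, rfl, rfl⟩⟩ : (t.hyper h).inc.edgeSet)) := by
    rintro ⟨p, hp⟩
    induction p using Sym2.ind with
    | _ x y =>
      have hp' : (t.hyper h).inc.Adj x y := hp
      rcases x with v | e
      · rcases y with w | e
        · exact absurd hp' id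
        · obtain ⟨i, hi, h1, h2⟩ := mem_edge.1 (show v ∈ t.edge n e from hp')
          have hv : v = ⟨t.vi i, (h.lt _ hi).1⟩ := Fin.ext h1.symm
          have he : e = ⟨t.ei i, (h.lt _ hi).2⟩ := Fin.ext h2.symm
          subst hv
          subst he
          exact ⟨⟨i, hi⟩, rfl⟩
      · rcases y with v | e'
        · obtain ⟨i, hi, h1, h2⟩ := mem_edge.1 (show v ∈ t.edge n e from hp')
          have hv : v = ⟨t.vi i, (h.lt _ hi).1⟩ := Fin.ext h1.symm
          have he : e = ⟨t.ei i, (h.lt _ hi).2⟩ := Fin.ext h2.symm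
          subst hv
          subst he
          exact ⟨⟨i, hi⟩, Subtype.ext Sym2.eq_swap⟩
        · exact absurd hp' id
  have h3 := Nat.card_le_card_of_surjective _ hsurj
  rwa [Nat.card_eq_fintype_card (α := Fin t.I), Fintype.card_fin] at h3

theorem preconn : (t.hyper h).inc.Preconnected := by
  by_cases hn : 0 < n
  · have key : ∀ k : ℕ, (∀ v : Fin n, t.dV v ≤ k →
        (t.hyper h).inc.Reachable (Sum.inl ⟨0, hn⟩) (Sum.inl v)) ∧
        ∀ e : Fin m, t.dE e ≤ k → (t.hyper h).inc.Reachable (Sum.inl ⟨0, hn⟩) (Sum.inr e) := by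
      intro k
      induction k with
      | zero =>
        refine ⟨fun v hv => ?_, fun e he => ?_⟩
        · rcases h.conV v v.2 with h1 | h1
          · have : v = ⟨0, hn⟩ := Fin.ext h1
            rw [this]
          · omega
        · have := h.conE e e.2
          omega
      | succ k ih =>
        refine ⟨fun v hv => ?_, fun e he => ?_⟩
        · rcases h.conV v v.2 with h1 | ⟨h1, h2, h3⟩
          · have : v = ⟨0, hn⟩ := Fin.ext h1
            rw [this]
          · refine (ih.2 ⟨t.ei (t.cV v), (h.lt _ h1).2⟩ (by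
              show t.dE (t.ei (t.cV v)) ≤ k
              omega)).trans ?_
            refine SimpleGraph.Adj.reachable ?_
            exact mem_edge.2 ⟨_, h1, h2, rfl⟩
        · obtain ⟨h1, h2, h3⟩ := h.conE e e.2
          refine (ih.1 ⟨t.vi (t.cE e), (h.lt _ h1).1⟩ (by
            show t.dV (t.vi (t.cE e)) ≤ k
            omega)).trans ?_
          refine SimpleGraph.Adj.reachable ?_
          exact mem_edge.2 ⟨_, h1, rfl, h2⟩
    have key2 : ∀ x, (t.hyper h).inc.Reachable (Sum.inl ⟨0, hn⟩) x := by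
      rintro (v | e)
      · exact (key _).1 v le_rfl
      · exact (key _).2 e le_rfl
    exact fun x y => (key2 x).symm.trans (key2 y)
  · rintro (v | e)
    · exact absurd (lt_of_le_of_lt (Nat.zero_le _) v.2) hn
    · obtain ⟨h1, -, -⟩ := h.conE e e.2
      have := (h.lt _ h1).1
      omega

theorem genusLE_zero : GenusLE (t.hyper h).inc 0 := by
  refine ⟨rot h, ?_⟩
  have h1 := edges_le h
  have h2 := faces_ge h
  have h3 : Nat.card (t.hyper h).inc.ConnectedComponent ≤ 1 := by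
    have : Subsingleton (t.hyper h).inc.ConnectedComponent :=
      (preconn h).subsingleton_connectedComponent
    exact Finite.card_le_one_iff_subsingleton.2 this
  have h4 : Nat.card (Fin n ⊕ Fin m) = n + m := by
    rw [Nat.card_eq_fintype_card, Fintype.card_sum, Fintype.card_fin, Fintype.card_fin]
  have h5 := h.euler
  rw [h4]
  omega

theorem genus_zero : (t.hyper h).genus = 0 :=
  Nat.sInf_eq_zero.2 (Or.inl (genusLE_zero h))

end PTab

end Pool.Agent.SEG
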