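import Pool.Agent.SG57.Tools
import Pool.Agent.SEG.Defs

/-!
# Segment representations with chosen crossing points; certificates

`Rep G` is a representation of `G` by closed segments, with a chosen common point `X u v` for
adjacent vertices.  The theorems `t2`, `t1`, `ladder` are the conclusions of certificates that
consist of connected and separated sets of vertices.  No general position is assumed.
-/

set_option autoImplicit false


namespace Pool.Agent.SEG

open Pool.Agent.SG57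

/-! ### paths -/

theorem pth_seg {U : Set Pt} {P Q : Pt} (h : segment ℝ P Q ⊆ U) : Pth U P Q :=
  ⟨[Q], ⟨h, h (right_mem_segment ℝ P Q)⟩, rfl⟩

theorem inU_append {U : Set Pt} : ∀ {P : Pt} {l m : List Pt}, InU U P l → InU U (lastp P l) m →
    InU U P (l ++ m) ∧ lastp P (l ++ m) = lastp (lastp P l) m
  | _, [], _, _, h => ⟨h, rfl⟩
  | P, Q :: l, m, h1, h2 => by
    have h3 := inU_append (P := Q) (l := l) (m := m) h1.2 h2
    exact ⟨⟨h1.1, h3.1⟩, h3.2⟩

theorem Pth.trans {U : Set Pt} {P Q R : Pt} (h1 : Pth U P Q) (h2 : Pth U Q R) : Pth U P R := by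
  obtain ⟨l, h3, rfl⟩ := h1
  obtain ⟨m, h4, rfl⟩ := h2
  obtain ⟨h5, h6⟩ := inU_append h3 h4
  exact ⟨l ++ m, h5, h6⟩

theorem inU_mono {U W : Set Pt} (h : U ⊆ W) : ∀ {P : Pt} {l : List Pt}, InU U P l → InU W P l
  | _, [], h1 => h h1
  | _, Q :: l, h1 => ⟨h1.1.trans h, inU_mono h (P := Q) (l := l) h1.2⟩

theorem Pth.mono {U W : Set Pt} (h : U ⊆ W) {P Q : Pt} (h1 : Pth U P Q) : Pth W P Q := by
  obtain ⟨l, h2, h3⟩ := h1
  exact ⟨l, inU_mono h h2, h3⟩

theorem pth_symm_aux {U : Set Pt} : ∀ {P : Pt} {l : List Pt}, InU U P l → Pth U (lastp P l) P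
  | P, [], h => pth_seg (by
      show segment ℝ P P ⊆ U
      rw [segment_same]
      exact Set.singleton_subset_iff.2 h)
  | P, Q :: l, h => by
    have h1 : Pth U (lastp Q l) Q := pth_symm_aux (P := Q) (l := l) h.2
    refine Pth.trans h1 (pth_seg ?_)
    rw [segment_symm]
    exact h.1

theorem Pth.symm {U : Set Pt} {P Q : Pt} (h : Pth U P Q) : Pth U Q P := by
  obtain ⟨l, h1, rfl⟩ := h
  exact pth_symm_aux h1

/-! ### representations -/

/-- A representation by segments with chosen common points. -/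
structure Rep {V : Type*} (G : SimpleGraph V) where
  a : V → Pt
  b : V → Pt
  X : V → V → Pt
  pos : V → V → ℝ
  dis : ∀ u v, u ≠ v → ¬ G.Adj u v → Disjoint (segment ℝ (a u) (b u)) (segment ℝ (a v) (b v))
  sym : ∀ u v, X u v = X v u
  mem : ∀ u v, G.Adj u v → X u v ∈ segment ℝ (a u) (b u)
  X_eq : ∀ u v, G.Adj u v → X u v = a u + pos u v • (b u - a u)

theorem Rep.exists {V : Type*} {G : SimpleGraph V} (h : IsSegmentGraph G) : Nonempty (Rep G) := by
  classical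
  obtain ⟨a, b, hab⟩ := h
  have h1 : ∀ e : Sym2 V, ∃ P : Pt, ∀ u v, e = s(u, v) → G.Adj u v →
      P ∈ segment ℝ (a u) (b u) := by
    intro e
    induction e using Sym2.ind with
    | h x y =>
      by_cases hxy : G.Adj x y
      · obtain ⟨P, hP1, hP2⟩ := (hab x y hxy.ne).2 hxy
        refine ⟨P, fun u v he _ => ?_⟩
        rcases Sym2.eq_iff.1 he with ⟨h2, h3⟩ | ⟨h2, h3⟩
        · rw [← h2]
          exact hP1
        · rw [← h3]
          exact hP2
      · refine ⟨a x, fun u v he hA => ?_⟩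
        exfalso
        rcases Sym2.eq_iff.1 he with ⟨h2, h3⟩ | ⟨h2, h3⟩
        · rw [← h2, ← h3] at hA
          exact hxy hA
        · rw [← h2, ← h3] at hA
          exact hxy hA.symm
  choose P hP using h1
  have h2 : ∀ u v, G.Adj u v → P s(u, v) ∈ segment ℝ (a u) (b u) := fun u v hA =>
    hP s(u, v) u v rfl hA
  have h3 : ∀ u v, ∃ t : ℝ, G.Adj u v → P s(u, v) = a u + t • (b u - a u) := by
    intro u v
    by_cases hA : G.Adj u v
    · have h4 := h2 u v hA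
      rw [segment_eq_image'] at h4
      obtain ⟨t, -, ht⟩ := h4
      exact ⟨t, fun _ => ht.symm⟩
    · exact ⟨0, fun h => absurd h hA⟩
  choose pos hpos using h3
  refine ⟨⟨a, b, fun u v => P s(u, v), pos, ?_, ?_, h2, hpos⟩⟩
  · intro u v huv hA
    rw [Set.disjoint_iff_inter_eq_empty, ← Set.not_nonempty_iff_eq_empty]
    exact fun h => hA ((hab u v huv).1 h)
  · intro u v
    show P s(u, v) = P s(v, u)
    rw [Sym2.eq_swap]

/-- a connected set of vertices -/
def Cn {V : Type*} (G : SimpleGraph V) (A : Set V) : Prop :=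
  ∀ u ∈ A, ∀ w ∈ A, Relation.ReflTransGen (fun s t => t ∈ A ∧ G.Adj s t) u w

/-- two sets of vertices without common or adjacent members -/
def Sep {V : Type*} (G : SimpleGraph V) (A B : Set V) : Prop :=
  ∀ s ∈ A, ∀ t ∈ B, s ≠ t ∧ ¬ G.Adj s t

theorem Sep.symm {V : Type*} {G : SimpleGraph V} {A B : Set V} (h : Sep G A B) : Sep G B A :=
  fun s hs t ht => ⟨(h t ht s hs).1.symm, fun h1 => (h t ht s hs).2 h1.symm⟩

namespace Rep

variable {V : Type*} {G : SimpleGraph V} (R : Rep G)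

/-- the string of a vertex -/
def S (v : V) : Set Pt := segment ℝ (R.a v) (R.b v)

/-- the union of the strings of a set of vertices -/
def U (A : Set V) : Set Pt := {P | ∃ v ∈ A, P ∈ R.S v}

theorem S_sub {A : Set V} {v : V} (h : v ∈ A) : R.S v ⊆ R.U A := fun _ hP => ⟨v, h, hP⟩

theorem conv (v : V) {P Q : Pt} (hP : P ∈ R.S v) (hQ : Q ∈ R.S v) : segment ℝ P Q ⊆ R.S v :=
  (convex_segment _ _).segment_subset hP hQ

theorem dis' {u v : V} (h : u ≠ v) (h' : ¬ G.Adj u v) : Disjoint (R.S u) (R.S v) := R.dis u v h h'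

theorem mem' {u v : V} (h : G.Adj u v) : R.X u v ∈ R.S u := R.mem u v h

theorem mem_right {u v : V} (h : G.Adj u v) : R.X u v ∈ R.S v := by
  rw [R.sym]
  exact R.mem v u h.symm

theorem dis_of_sep {A B : Set V} (h : Sep G A B) : Disjoint (R.U A) (R.U B) := by
  rw [Set.disjoint_left]
  rintro P ⟨s, hs, h1⟩ ⟨t, ht, h2⟩
  exact Set.disjoint_left.1 (R.dis' (h s hs t ht).1 (h s hs t ht).2) h1 h2

theorem dis_S_of_sep {A : Set V} {v : V} (h : Sep G A {v}) : Disjoint (R.U A) (R.S v) := by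
  have h1 := R.dis_of_sep h
  exact h1.mono_right (R.S_sub (Set.mem_singleton v))

theorem pth_aux {A : Set V} {u w : V} (hu : u ∈ A)
    (h : Relation.ReflTransGen (fun s t => t ∈ A ∧ G.Adj s t) u w) :
    ∀ {P Q : Pt}, P ∈ R.S u → Q ∈ R.S w → Pth (R.U A) P Q := by
  induction h with
  | refl =>
    intro P Q hP hQ
    exact pth_seg ((R.conv u hP hQ).trans (R.S_sub hu))
  | @tail s t h1 h2 ih =>
    intro P Q hP hQ
    have h3 := ih hP (R.mem' h2.2)
    refine Pth.trans h3 (pth_seg ((R.conv t ?_ hQ).trans (R.S_sub h2.1)))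
    exact R.mem_right h2.2

theorem pth {A : Set V} (hA : Cn G A) {u w : V} (hu : u ∈ A) (hw : w ∈ A) {P Q : Pt}
    (hP : P ∈ R.S u) (hQ : Q ∈ R.S w) : Pth (R.U A) P Q :=
  R.pth_aux hu (hA u hu w hw) hP hQ

/-! ### the order on a string -/

/-- the piece of the string of `v` between the crossings with `x` and with `y` -/
def pc (v x y : V) : Set Pt := segment ℝ (R.X v x) (R.X v y)

theorem pc_sub {v x y : V} (hx : G.Adj v x) (hy : G.Adj v y) : R.pc v x y ⊆ R.S v :=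
  R.conv v (R.mem' hx) (R.mem' hy)

theorem pc_comm (v x y : V) : R.pc v x y = R.pc v y x := segment_symm ℝ _ _

theorem line_mem {A D : Pt} {s t r : ℝ} (h1 : s ≤ t) (h2 : t ≤ r) :
    A + t • D ∈ segment ℝ (A + s • D) (A + r • D) := by
  rcases eq_or_lt_of_le (h1.trans h2) with h3 | h3
  · have h4 : t = s := le_antisymm (by rw [h3]; exact h2) h1
    rw [h4]
    exact left_mem_segment ℝ _ _
  · rw [segment_eq_image']
    refine ⟨(t - s) / (r - s), ⟨div_nonneg (by linarith) (by linarith),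
      (div_le_one (by linarith)).2 (by linarith)⟩, ?_⟩
    have h4 : (A + r • D - (A + s • D)) = (r - s) • D := by
      rw [sub_smul]
      abel
    show A + s • D + ((t - s) / (r - s)) • (A + r • D - (A + s • D)) = A + t • D
    rw [h4, smul_smul, div_mul_cancel₀ _ (by linarith : r - s ≠ 0), add_assoc, ← add_smul]
    congr 2
    ring

theorem mem_line {A D P : Pt} {s r : ℝ} (h1 : s ≤ r) (h : P ∈ segment ℝ (A + s • D) (A + r • D)) :
    ∃ t, s ≤ t ∧ t ≤ r ∧ P = A + t • D := by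
  rw [segment_eq_image'] at h
  obtain ⟨c, ⟨hc0, hc1⟩, hc⟩ := h
  refine ⟨s + c * (r - s), by nlinarith, by nlinarith, ?_⟩
  rw [← hc]
  have h4 : (A + r • D - (A + s • D)) = (r - s) • D := by
    rw [sub_smul]
    abel
  show A + s • D + c • (A + r • D - (A + s • D)) = A + (s + c * (r - s)) • D
  rw [h4, smul_smul, add_assoc, ← add_smul]

/-- between in the order of the string -/
theorem btw {v x y z : V} (hx : G.Adj v x) (hy : G.Adj v y) (hz : G.Adj v z)
    (h1 : R.pos v x ≤ R.pos v y) (h2 : R.pos v y ≤ R.pos v z) : R.X v y ∈ R.pc v x z := by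
  unfold pc
  rw [R.X_eq v x hx, R.X_eq v y hy, R.X_eq v z hz]
  exact line_mem h1 h2

theorem pc_mem {v x z : V} (hx : G.Adj v x) (hz : G.Adj v z) (h : R.pos v x ≤ R.pos v z) {P : Pt}
    (hP : P ∈ R.pc v x z) : ∃ t, R.pos v x ≤ t ∧ t ≤ R.pos v z ∧
      P = R.a v + t • (R.b v - R.a v) := by
  unfold pc at hP
  rw [R.X_eq v x hx, R.X_eq v z hz] at hP
  exact mem_line h hP

theorem X_ne {v x z : V} (hx : G.Adj v x) (hz : G.Adj v z) (hn : x ≠ z) (hn' : ¬ G.Adj x z) :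
    R.X v x ≠ R.X v z := by
  intro h
  have h1 := R.mem_right hx
  have h2 := R.mem_right hz
  rw [h] at h1
  exact Set.disjoint_left.1 (R.dis' hn hn') h1 h2

theorem pos_ne {v x z : V} (hx : G.Adj v x) (hz : G.Adj v z) (hn : x ≠ z) (hn' : ¬ G.Adj x z) :
    R.pos v x ≠ R.pos v z := by
  intro h
  refine R.X_ne hx hz hn hn' ?_
  rw [R.X_eq v x hx, R.X_eq v z hz, h]

/-- a piece `[y, z]` (`pos y ≤ pos z`) is disjoint from the string of `x` if `x` is outside and
not adjacent to `y` and `z` -/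
theorem pc_dis1 {v x y z : V} (hx : G.Adj v x) (hy : G.Adj v y) (hz : G.Adj v z)
    (hyz : R.pos v y ≤ R.pos v z) (h1 : x ≠ y) (h1' : ¬ G.Adj x y) (h2 : x ≠ z)
    (h2' : ¬ G.Adj x z) (h : R.pos v x < R.pos v y ∨ R.pos v z < R.pos v x) :
    Disjoint (R.S x) (R.pc v y z) := by
  rw [Set.disjoint_left]
  intro P hP1 hP2
  obtain ⟨t, ht1, ht2, hP⟩ := R.pc_mem hy hz hyz hP2
  rcases h with h | h
  · have h3 : R.X v y ∈ segment ℝ (R.X v x) P := by
      rw [hP, R.X_eq v x hx, R.X_eq v y hy]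
      exact line_mem h.le ht1
    have h4 : R.X v y ∈ R.S x := R.conv x (R.mem_right hx) hP1 h3
    exact Set.disjoint_left.1 (R.dis' h1 h1') h4 (R.mem_right hy)
  · have h3 : R.X v z ∈ segment ℝ P (R.X v x) := by
      rw [hP, R.X_eq v x hx, R.X_eq v z hz]
      exact line_mem ht2 h.le
    have h4 : R.X v z ∈ R.S x := R.conv x hP1 (R.mem_right hx) h3
    exact Set.disjoint_left.1 (R.dis' h2 h2') h4 (R.mem_right hz)

theorem pc_dis {v x y z : V} (hx : G.Adj v x) (hy : G.Adj v y) (hz : G.Adj v z)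
    (h1 : x ≠ y) (h1' : ¬ G.Adj x y) (h2 : x ≠ z) (h2' : ¬ G.Adj x z)
    (h : (R.pos v x < R.pos v y ∧ R.pos v x < R.pos v z) ∨
      (R.pos v y < R.pos v x ∧ R.pos v z < R.pos v x)) :
    Disjoint (R.S x) (R.pc v y z) := by
  rcases le_total (R.pos v y) (R.pos v z) with h3 | h3
  · exact R.pc_dis1 hx hy hz h3 h1 h1' h2 h2' (h.imp (fun h => h.1) (fun h => h.2))
  · rw [R.pc_comm]
    exact R.pc_dis1 hx hz hy h3 h2 h2' h1 h1' (h.imp (fun h => h.2) (fun h => h.1))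

/-- two pieces of one string are disjoint if their ends are separated -/
theorem pc_pc1 {v x y z w : V} (hx : G.Adj v x) (hy : G.Adj v y) (hz : G.Adj v z)
    (hw : G.Adj v w) (h1 : y ≠ z) (h1' : ¬ G.Adj y z) (hxy : R.pos v x ≤ R.pos v y)
    (hzw : R.pos v z ≤ R.pos v w) (h : R.pos v y < R.pos v z) :
    Disjoint (R.pc v x y) (R.pc v z w) := by
  rw [Set.disjoint_left]
  intro P hP1 hP2
  obtain ⟨t, ht1, ht2, hP⟩ := R.pc_mem hx hy hxy hP1
  obtain ⟨r, hr1, hr2, hP'⟩ := R.pc_mem hz hw hzw hP2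
  have h3 : (r - t) • (R.b v - R.a v) = 0 := by
    rw [sub_smul, sub_eq_zero]
    exact add_left_cancel (hP'.symm.trans hP)
  have h4 : r - t ≠ 0 := by
    intro h5
    linarith
  have h5 : R.b v - R.a v = 0 := (smul_eq_zero.1 h3).resolve_left h4
  refine R.X_ne hy hz h1 h1' ?_
  rw [R.X_eq v y hy, R.X_eq v z hz, h5, smul_zero, smul_zero]

theorem pc_pc {v x y z w : V} (hx : G.Adj v x) (hy : G.Adj v y) (hz : G.Adj v z)
    (hw : G.Adj v w) (h1 : Sep G {x, y} {z, w})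
    (h : R.pos v x < R.pos v z) (h2 : R.pos v x < R.pos v w) (h3 : R.pos v y < R.pos v z)
    (h4 : R.pos v y < R.pos v w) :
    Disjoint (R.pc v x y) (R.pc v z w) := by
  have s1 := h1 x (by simp) z (by simp)
  have s2 := h1 x (by simp) w (by simp)
  have s3 := h1 y (by simp) z (by simp)
  have s4 := h1 y (by simp) w (by simp)
  rcases le_total (R.pos v x) (R.pos v y) with h5 | h5 <;>
    rcases le_total (R.pos v z) (R.pos v w) with h6 | h6
  · exact R.pc_pc1 hx hy hz hw s3.1 s3.2 h5 h6 h3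
  · rw [R.pc_comm v z w]
    exact R.pc_pc1 hx hy hw hz s4.1 s4.2 h5 h6 h4
  · rw [R.pc_comm v x y]
    exact R.pc_pc1 hy hx hz hw s1.1 s1.2 h5 h6 h
  · rw [R.pc_comm v x y, R.pc_comm v z w]
    exact R.pc_pc1 hy hx hw hz s2.1 s2.2 h5 h6 h2

/-! ### the certificates -/

/-- **T2** -/
theorem t2 {a u k1 k2 m1 m2 : V} (hk1 : G.Adj a k1) (hk2 : G.Adj a k2) (hm1 : G.Adj u m1)
    (hm2 : G.Adj u m2) {A B : Set V} (hA : Cn G A) (hB : Cn G B) (k1A : k1 ∈ A) (k2A : k2 ∈ A)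
    (m1B : m1 ∈ B) (m2B : m2 ∈ B) (hAB : Sep G A B) (hAu : Sep G A {u}) (hBa : Sep G B {a}) :
    Disjoint (R.pc a k1 k2) (R.pc u m1 m2) := by
  refine T2 (R.pth hA k1A k2A (R.mem_right hk1) (R.mem_right hk2))
    (R.pth hB m1B m2B (R.mem_right hm1) (R.mem_right hm2)) (R.dis_of_sep hAB) ?_ ?_
  · exact (R.dis_S_of_sep hAu).mono_right (R.pc_sub hm1 hm2)
  · exact (R.dis_S_of_sep hBa).mono_right (R.pc_sub hk1 hk2)

/-- the conclusion of `t2` for an edge `a u` -/
theorem t2' {a u : V} (hau : G.Adj a u) {A B : Set V} (hA : Cn G A) (hB : Cn G B)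
    (hAB : Sep G A B) (hAu : Sep G A {u}) (hBa : Sep G B {a}) {k1 k2 m1 m2 : V}
    (hk1 : G.Adj a k1) (hk2 : G.Adj a k2) (hm1 : G.Adj u m1)
    (hm2 : G.Adj u m2) (k1A : k1 ∈ A) (k2A : k2 ∈ A)
    (m1B : m1 ∈ B) (m2B : m2 ∈ B) (h1 : R.pos a k1 ≤ R.pos a u) (h2 : R.pos a u ≤ R.pos a k2)
    (h3 : R.pos u m1 ≤ R.pos u a) (h4 : R.pos u a ≤ R.pos u m2) : False := by
  have h5 := R.btw hk1 hau hk2 h1 h2
  have h6 := R.btw hm1 hau.symm hm2 h3 h4
  rw [R.sym] at h6
  exact Set.disjoint_left.1 (R.t2 hk1 hk2 hm1 hm2 hA hB k1A k2A m1B m2B hAB hAu hBa) h5 h6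

/-- one side of `t1` -/
theorem t1aux {v x y z w : V} (hx : G.Adj v x) (hy : G.Adj v y) (hz : G.Adj v z)
    (hw : G.Adj v w) {r1 r2 r3 r4 : V} {AX AY AZ AW R12 R23 R34 R41 : Set V}
    (cX : Cn G AX) (cY : Cn G AY) (cZ : Cn G AZ) (cW : Cn G AW)
    (c12 : Cn G R12) (c23 : Cn G R23) (c34 : Cn G R34) (c41 : Cn G R41)
    (xX : x ∈ AX) (yY : y ∈ AY) (zZ : z ∈ AZ) (wW : w ∈ AW)
    (r1X : r1 ∈ AX) (r1a : r1 ∈ R12) (r1b : r1 ∈ R41)
    (r3Y : r3 ∈ AY) (r3a : r3 ∈ R23) (r3b : r3 ∈ R34)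
    (r2Z : r2 ∈ AZ) (r2a : r2 ∈ R12) (r2b : r2 ∈ R23)
    (r4W : r4 ∈ AW) (r4a : r4 ∈ R34) (r4b : r4 ∈ R41)
    (sXZ : Sep G AX AZ) (sXW : Sep G AX AW) (sYZ : Sep G AY AZ) (sYW : Sep G AY AW)
    (s13 : Sep G R12 R34) (s24 : Sep G R23 R41)
    (sX23 : Sep G AX R23) (sX34 : Sep G AX R34) (sY12 : Sep G AY R12) (sY41 : Sep G AY R41)
    (sZ34 : Sep G AZ R34) (sZ41 : Sep G AZ R41) (sW12 : Sep G AW R12) (sW23 : Sep G AW R23)
    (v12 : Sep G R12 {v}) (v23 : Sep G R23 {v}) (v34 : Sep G R34 {v}) (v41 : Sep G R41 {v})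
    (vX : Sep G (AX \ {x}) {v}) (vY : Sep G (AY \ {y}) {v}) (vZ : Sep G (AZ \ {z}) {v})
    (vW : Sep G (AW \ {w}) {v})
    (h1 : R.pos v x < R.pos v z) (h2 : R.pos v x < R.pos v w) (h3 : R.pos v y < R.pos v z)
    (h4 : R.pos v y < R.pos v w) : False := by
  have nxz := sXZ x xX z zZ
  have nxw := sXW x xX w wW
  have nyz := sYZ y yY z zZ
  have nyw := sYW y yY w wW
  -- pieces against arms
  have pc_arm : ∀ {A : Set V} {s t q : V}, G.Adj v s → G.Adj v t → G.Adj v q →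
      Sep G (A \ {q}) {v} → (q ≠ s ∧ ¬ G.Adj q s) → (q ≠ t ∧ ¬ G.Adj q t) →
      ((R.pos v q < R.pos v s ∧ R.pos v q < R.pos v t) ∨
      (R.pos v s < R.pos v q ∧ R.pos v t < R.pos v q)) →
      Disjoint (R.U A) (R.pc v s t) := by
    intro A s t q hs ht hq hA h5 h6 h7
    rw [Set.disjoint_left]
    rintro P ⟨k, hk, hP⟩ hP2
    by_cases hkq : k = q
    · rw [hkq] at hP
      exact Set.disjoint_left.1 (R.pc_dis hq hs ht h5.1 h5.2 h6.1 h6.2 h7) hP hP2
    · have h8 := hA k ⟨hk, hkq⟩ v (Set.mem_singleton v)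
      exact Set.disjoint_left.1 (R.dis' h8.1 h8.2) hP (R.pc_sub hs ht hP2)
  have aX : Disjoint (R.U AX) (R.pc v z w) := pc_arm hz hw hx vX nxz nxw (Or.inl ⟨h1, h2⟩)
  have aY : Disjoint (R.U AY) (R.pc v z w) := pc_arm hz hw hy vY nyz nyw (Or.inl ⟨h3, h4⟩)
  have aZ : Disjoint (R.U AZ) (R.pc v x y) :=
    pc_arm hx hy hz vZ ⟨nxz.1.symm, fun h => nxz.2 h.symm⟩ ⟨nyz.1.symm, fun h => nyz.2 h.symm⟩
      (Or.inr ⟨h1, h3⟩)
  have aW : Disjoint (R.U AW) (R.pc v x y) :=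
    pc_arm hx hy hw vW ⟨nxw.1.symm, fun h => nxw.2 h.symm⟩ ⟨nyw.1.symm, fun h => nyw.2 h.symm⟩
      (Or.inr ⟨h2, h4⟩)
  have pp : Disjoint (R.pc v x y) (R.pc v z w) := by
    refine R.pc_pc hx hy hz hw ?_ h1 h2 h3 h4
    rintro s (rfl | hs) t (rfl | ht)
    · exact nxz
    · rw [Set.mem_singleton_iff] at ht
      rw [ht]
      exact nxw
    · rw [Set.mem_singleton_iff] at hs
      rw [hs]
      exact nyz
    · rw [Set.mem_singleton_iff] at hs ht
      rw [hs, ht]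
      exact nyw
  have ring : ∀ {A : Set V} {s t : V}, G.Adj v s → G.Adj v t → Sep G A {v} →
      Disjoint (R.U A) (R.pc v s t) := fun hs ht hA =>
    (R.dis_S_of_sep hA).mono_right (R.pc_sub hs ht)
  have un : ∀ {A B C : Set Pt}, Disjoint A B → Disjoint A C → Disjoint A (B ∪ C) :=
    fun h h' => Set.disjoint_union_right.2 ⟨h, h'⟩
  have un' : ∀ {A B C : Set Pt}, Disjoint B A → Disjoint C A → Disjoint (B ∪ C) A :=
    fun h h' => Set.disjoint_union_left.2 ⟨h, h'⟩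
  -- the K33
  refine T1 ![R.a r1, R.a r3, R.X v z] ![R.a r2, R.a r4, R.X v y]
    ![![R.U R12, R.U R41, R.U AX ∪ R.pc v x y],
      ![R.U R23, R.U R34, R.U AY],
      ![R.U AZ, R.U AW ∪ R.pc v z w, R.pc v y z]] ?_ ?_
  · have e1 : R.a r1 ∈ R.S r1 := left_mem_segment ℝ _ _
    have e2 : R.a r2 ∈ R.S r2 := left_mem_segment ℝ _ _
    have e3 : R.a r3 ∈ R.S r3 := left_mem_segment ℝ _ _
    have e4 : R.a r4 ∈ R.S r4 := left_mem_segment ℝ _ _
    intro i j
    fin_cases i <;> fin_cases j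
    · exact R.pth c12 r1a r2a e1 e2
    · exact R.pth c41 r1b r4b e1 e4
    · show Pth (R.U AX ∪ R.pc v x y) (R.a r1) (R.X v y)
      exact Pth.trans (Pth.mono Set.subset_union_left (R.pth cX r1X xX e1 (R.mem_right hx)))
        (pth_seg Set.subset_union_right)
    · exact R.pth c23 r3a r2b e3 e2
    · exact R.pth c34 r3b r4a e3 e4
    · exact R.pth cY r3Y yY e3 (R.mem_right hy)
    · exact R.pth cZ zZ r2Z (R.mem_right hz) e2
    · show Pth (R.U AW ∪ R.pc v z w) (R.X v z) (R.a r4)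
      exact Pth.trans (pth_seg Set.subset_union_right)
        (Pth.mono Set.subset_union_left (R.pth cW wW r4W (R.mem_right hw) e4))
    · show Pth (R.pc v y z) (R.X v z) (R.X v y)
      exact Pth.symm (pth_seg subset_rfl)
  · have d1 := R.dis_of_sep s13
    have d2 := R.dis_of_sep sY12
    have d3 : Disjoint (R.U R12) (R.U AW ∪ R.pc v z w) := un (R.dis_of_sep sW12).symm (ring hz hw v12)
    have d4 : Disjoint (R.U R12) (R.pc v y z) := ring hy hz v12
    have d5 := R.dis_of_sep s24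
    have d6 := R.dis_of_sep sY41
    have d7 := R.dis_of_sep sZ41
    have d8 : Disjoint (R.U R41) (R.pc v y z) := ring hy hz v41
    have d9 : Disjoint (R.U AX ∪ R.pc v x y) (R.U R23) :=
      un' (R.dis_of_sep sX23) (ring hx hy v23).symm
    have d10 : Disjoint (R.U AX ∪ R.pc v x y) (R.U R34) :=
      un' (R.dis_of_sep sX34) (ring hx hy v34).symm
    have d11 : Disjoint (R.U AX ∪ R.pc v x y) (R.U AZ) := un' (R.dis_of_sep sXZ) aZ.symm
    have d12 : Disjoint (R.U AX ∪ R.pc v x y) (R.U AW ∪ R.pc v z w) :=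
      un' (un (R.dis_of_sep sXW) aX) (un aW.symm pp)
    have d13 : Disjoint (R.U R23) (R.U AW ∪ R.pc v z w) :=
      un (R.dis_of_sep sW23).symm (ring hz hw v23)
    have d14 : Disjoint (R.U R23) (R.pc v y z) := ring hy hz v23
    have d15 := R.dis_of_sep sZ34
    have d16 : Disjoint (R.U R34) (R.pc v y z) := ring hy hz v34
    have d17 := R.dis_of_sep sYZ
    have d18 : Disjoint (R.U AY) (R.U AW ∪ R.pc v z w) := un (R.dis_of_sep sYW) aY
    intro i j i' j' hi hj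
    fin_cases i <;> fin_cases i' <;> first
      | exact absurd rfl hi
      | (fin_cases j <;> fin_cases j' <;> first
          | exact absurd rfl hj
          | exact d1
          | exact d1.symm
          | exact d2
          | exact d2.symm
          | exact d3
          | exact d3.symm
          | exact d4
          | exact d4.symm
          | exact d5
          | exact d5.symm
          | exact d6
          | exact d6.symm
          | exact d7
          | exact d7.symm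
          | exact d8
          | exact d8.symm
          | exact d9
          | exact d9.symm
          | exact d10
          | exact d10.symm
          | exact d11
          | exact d11.symm
          | exact d12
          | exact d12.symm
          | exact d13
          | exact d13.symm
          | exact d14
          | exact d14.symm
          | exact d15
          | exact d15.symm
          | exact d16
          | exact d16.symm
          | exact d17
          | exact d17.symm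
          | exact d18
          | exact d18.symm)

end Rep

/-- A `K33` certificate: arms `AX` (from `x` to `r1`), `AY` (`y`, `r3`), `AZ` (`z`, `r2`), `AW`
(`w`, `r4`) and the ring `R12, R23, R34, R41`; only `x, y, z, w` are adjacent to `v`. -/
structure T1C {V : Type*} (G : SimpleGraph V) (v x y z w : V) where
  r1 : V
  r2 : V
  r3 : V
  r4 : V
  AX : Set V
  AY : Set V
  AZ : Set V
  AW : Set V
  R12 : Set V
  R23 : Set V
  R34 : Set V
  R41 : Set V
  hx : G.Adj v x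
  hy : G.Adj v y
  hz : G.Adj v z
  hw : G.Adj v w
  cX : Cn G AX
  cY : Cn G AY
  cZ : Cn G AZ
  cW : Cn G AW
  c12 : Cn G R12
  c23 : Cn G R23
  c34 : Cn G R34
  c41 : Cn G R41
  xX : x ∈ AX
  yY : y ∈ AY
  zZ : z ∈ AZ
  wW : w ∈ AW
  r1X : r1 ∈ AX
  r1a : r1 ∈ R12
  r1b : r1 ∈ R41
  r3Y : r3 ∈ AY
  r3a : r3 ∈ R23
  r3b : r3 ∈ R34
  r2Z : r2 ∈ AZ
  r2a : r2 ∈ R12
  r2b : r2 ∈ R23
  r4W : r4 ∈ AW
  r4a : r4 ∈ R34
  r4b : r4 ∈ R41
  sXZ : Sep G AX AZ
  sXW : Sep G AX AW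
  sYZ : Sep G AY AZ
  sYW : Sep G AY AW
  s13 : Sep G R12 R34
  s24 : Sep G R23 R41
  sX23 : Sep G AX R23
  sX34 : Sep G AX R34
  sY12 : Sep G AY R12
  sY41 : Sep G AY R41
  sZ34 : Sep G AZ R34
  sZ41 : Sep G AZ R41
  sW12 : Sep G AW R12
  sW23 : Sep G AW R23
  v12 : Sep G R12 {v}
  v23 : Sep G R23 {v}
  v34 : Sep G R34 {v}
  v41 : Sep G R41 {v}
  vX : Sep G (AX \ {x}) {v}
  vY : Sep G (AY \ {y}) {v}
  vZ : Sep G (AZ \ {z}) {v}
  vW : Sep G (AW \ {w}) {v}

namespace T1C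

variable {V : Type*} {G : SimpleGraph V} {v x y z w : V}

/-- the certificate seen from the other side -/
def swap (C : T1C G v x y z w) : T1C G v z w y x where
  r1 := C.r2
  r2 := C.r3
  r3 := C.r4
  r4 := C.r1
  AX := C.AZ
  AY := C.AW
  AZ := C.AY
  AW := C.AX
  R12 := C.R23
  R23 := C.R34
  R34 := C.R41
  R41 := C.R12
  hx := C.hz
  hy := C.hw
  hz := C.hy
  hw := C.hx
  cX := C.cZ
  cY := C.cW
  cZ := C.cY
  cW := C.cX
  c12 := C.c23
  c23 := C.c34
  c34 := C.c41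
  c41 := C.c12
  xX := C.zZ
  yY := C.wW
  zZ := C.yY
  wW := C.xX
  r1X := C.r2Z
  r1a := C.r2b
  r1b := C.r2a
  r3Y := C.r4W
  r3a := C.r4a
  r3b := C.r4b
  r2Z := C.r3Y
  r2a := C.r3a
  r2b := C.r3b
  r4W := C.r1X
  r4a := C.r1b
  r4b := C.r1a
  sXZ := C.sYZ.symm
  sXW := C.sXZ.symm
  sYZ := C.sYW.symm
  sYW := C.sXW.symm
  s13 := C.s24
  s24 := C.s13.symm
  sX23 := C.sZ34
  sX34 := C.sZ41
  sY12 := C.sW23
  sY41 := C.sW12
  sZ34 := C.sY41
  sZ41 := C.sY12
  sW12 := C.sX23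
  sW23 := C.sX34
  v12 := C.v23
  v23 := C.v34
  v34 := C.v41
  v41 := C.v12
  vX := C.vZ
  vY := C.vW
  vZ := C.vY
  vW := C.vX

theorem half (C : T1C G v x y z w) (R : Rep G) (h1 : R.pos v x < R.pos v z)
    (h2 : R.pos v x < R.pos v w) (h3 : R.pos v y < R.pos v z) (h4 : R.pos v y < R.pos v w) :
    False :=
  R.t1aux C.hx C.hy C.hz C.hw C.cX C.cY C.cZ C.cW C.c12 C.c23 C.c34 C.c41 C.xX C.yY C.zZ C.wW
    C.r1X C.r1a C.r1b C.r3Y C.r3a C.r3b C.r2Z C.r2a C.r2b C.r4W C.r4a C.r4b C.sXZ C.sXW C.sYZ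
    C.sYW C.s13 C.s24 C.sX23 C.sX34 C.sY12 C.sY41 C.sZ34 C.sZ41 C.sW12 C.sW23 C.v12 C.v23 C.v34
    C.v41 C.vX C.vY C.vZ C.vW h1 h2 h3 h4

/-- **T1**: `x, y` and `z, w` are not separated on the string of `v` -/
theorem t1 (C : T1C G v x y z w) (R : Rep G) :
    ¬ (R.pos v x < R.pos v z ∧ R.pos v x < R.pos v w ∧ R.pos v y < R.pos v z ∧
      R.pos v y < R.pos v w) ∧
    ¬ (R.pos v z < R.pos v x ∧ R.pos v w < R.pos v x ∧ R.pos v z < R.pos v y ∧
      R.pos v w < R.pos v y) :=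
  ⟨fun h => C.half R h.1 h.2.1 h.2.2.1 h.2.2.2,
    fun h => C.swap.half R h.2.2.1 h.1 h.2.2.2 h.2.1⟩

end T1C

namespace Rep

variable {V : Type*} {G : SimpleGraph V} (R : Rep G)

/-- **the ladder**: a guest `g` of `a, b` that is between members of `SA` on `a` and between
members of `SB` on `b` is not between connectors on the inner vertex `z`. -/
theorem ladder {a b g z : V} (hab : G.Adj a b) (hga : G.Adj g a) (hgb : G.Adj g b)
    (hgz : G.Adj g z) {SA SB TA TB C : Set V} (cSA : Cn G SA) (cSB : Cn G SB) (cTA : Cn G TA)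
    (cTB : Cn G TB) (cC : Cn G C) (sAB : Sep G SA SB) (sAb : Sep G SA {b}) (sBa : Sep G SB {a})
    (sAg : Sep G SA {g}) (sBg : Sep G SB {g}) (tB : SB ⊆ TB) (zTB : z ∈ TB) (tBa : Sep G TB {a})
    (tBA : Sep G TB SA) (tA : SA ⊆ TA) (zTA : z ∈ TA) (tAb : Sep G TA {b}) (tAB : Sep G TA SB)
    (sCg : Sep G C {g}) (sCa : Sep G C {a}) (sCb : Sep G C {b}) (za : Sep G {z} {a})
    (zb : Sep G {z} {b}) {d1 d2 d3 d4 n n' : V} (h1 : G.Adj a d1) (h2 : G.Adj a d2)
    (h3 : G.Adj b d3) (h4 : G.Adj b d4) (h5 : G.Adj z n) (h6 : G.Adj z n') (m1 : d1 ∈ SA)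
    (m2 : d2 ∈ SA) (m3 : d3 ∈ SB) (m4 : d4 ∈ SB) (m5 : n ∈ C) (m6 : n' ∈ C)
    (p1 : R.pos a d1 ≤ R.pos a g) (p2 : R.pos a g ≤ R.pos a d2) (p3 : R.pos b d3 ≤ R.pos b g)
    (p4 : R.pos b g ≤ R.pos b d4) (p5 : R.pos z n ≤ R.pos z g) (p6 : R.pos z g ≤ R.pos z n') :
    False := by
  have xa : R.X g a ∈ R.pc a d1 d2 := by
    rw [R.sym]
    exact R.btw h1 hga.symm h2 p1 p2
  have xb : R.X g b ∈ R.pc b d3 d4 := by
    rw [R.sym]
    exact R.btw h3 hgb.symm h4 p3 p4
  have D : Disjoint (R.pc a d1 d2) (R.pc b d3 d4) := R.t2 h1 h2 h3 h4 cSA cSB m1 m2 m3 m4 sAB sAb sBa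
  -- (ii)
  have E1 : Disjoint (R.pc g z b) (R.pc a d1 d2) := by
    have e1 : R.pc b d3 g ⊆ R.pc b d3 d4 := by
      refine (convex_segment _ _).segment_subset (left_mem_segment ℝ _ _) ?_
      rw [R.sym b g]
      exact xb
    have e2 : R.pc b d3 g ⊆ R.S b := R.pc_sub h3 hgb.symm
    refine T2 (A := R.U TB ∪ R.pc b d3 g) (B := R.U SA) ?_ (R.pth cSA m1 m2 (R.mem_right h1)
      (R.mem_right h2)) ?_ ?_ ?_
    · refine Pth.trans (Pth.mono Set.subset_union_left (R.pth cTB zTB (tB m3) (R.mem_right hgz)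
        (R.mem_right h3))) (pth_seg ?_)
      rw [R.sym g b]
      exact Set.subset_union_right
    · exact Set.disjoint_union_left.2 ⟨R.dis_of_sep tBA,
        ((R.dis_S_of_sep sAb).mono_right e2).symm⟩
    · exact Set.disjoint_union_left.2 ⟨(R.dis_S_of_sep tBa).mono_right (R.pc_sub h1 h2),
        (D.mono_right e1).symm⟩
    · exact (R.dis_S_of_sep sAg).mono_right (R.pc_sub hgz hgb)
  have E2 : Disjoint (R.pc g z a) (R.pc b d3 d4) := by
    have e1 : R.pc a d1 g ⊆ R.pc a d1 d2 := by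
      refine (convex_segment _ _).segment_subset (left_mem_segment ℝ _ _) ?_
      rw [R.sym a g]
      exact xa
    have e2 : R.pc a d1 g ⊆ R.S a := R.pc_sub h1 hga.symm
    refine T2 (A := R.U TA ∪ R.pc a d1 g) (B := R.U SB) ?_ (R.pth cSB m3 m4 (R.mem_right h3)
      (R.mem_right h4)) ?_ ?_ ?_
    · refine Pth.trans (Pth.mono Set.subset_union_left (R.pth cTA zTA (tA m1) (R.mem_right hgz)
        (R.mem_right h1))) (pth_seg ?_)
      rw [R.sym g a]
      exact Set.subset_union_right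
    · exact Set.disjoint_union_left.2 ⟨R.dis_of_sep tAB,
        ((R.dis_S_of_sep sBa).mono_right e2).symm⟩
    · exact Set.disjoint_union_left.2 ⟨(R.dis_S_of_sep tAb).mono_right (R.pc_sub h3 h4),
        D.mono_left e1⟩
    · exact (R.dis_S_of_sep sBg).mono_right (R.pc_sub hgz hga)
  -- the order on `g`
  have n1 : ¬ (R.pos g z ≤ R.pos g a ∧ R.pos g a ≤ R.pos g b) := fun h =>
    Set.disjoint_left.1 E1 (R.btw hgz hga hgb h.1 h.2) xa
  have n2 : ¬ (R.pos g b ≤ R.pos g a ∧ R.pos g a ≤ R.pos g z) := fun h =>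
    Set.disjoint_left.1 E1 (by
      rw [R.pc_comm]
      exact R.btw hgb hga hgz h.1 h.2) xa
  have n3 : ¬ (R.pos g z ≤ R.pos g b ∧ R.pos g b ≤ R.pos g a) := fun h =>
    Set.disjoint_left.1 E2 (R.btw hgz hgb hga h.1 h.2) xb
  have n4 : ¬ (R.pos g a ≤ R.pos g b ∧ R.pos g b ≤ R.pos g z) := fun h =>
    Set.disjoint_left.1 E2 (by
      rw [R.pc_comm]
      exact R.btw hga hgb hgz h.1 h.2) xb
  have mid : R.X g z ∈ R.pc g a b := by
    rcases le_total (R.pos g a) (R.pos g b) with h7 | h7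
    · refine R.btw hga hgz hgb ?_ ?_
      · by_contra h8
        exact n1 ⟨(not_le.1 h8).le, h7⟩
      · by_contra h8
        exact n4 ⟨h7, (not_le.1 h8).le⟩
    · rw [R.pc_comm]
      refine R.btw hgb hgz hga ?_ ?_
      · by_contra h8
        exact n3 ⟨(not_le.1 h8).le, h7⟩
      · by_contra h8
        exact n2 ⟨h7, (not_le.1 h8).le⟩
  -- (iii)
  have E3 : Disjoint (R.pc g a b) (R.pc z n n') := by
    refine T2 (A := R.S a ∪ R.S b) (B := R.U C) ?_ (R.pth cC m5 m6 (R.mem_right h5)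
      (R.mem_right h6)) ?_ ?_ ?_
    · exact Pth.trans (pth_seg ((R.conv a (R.mem_right hga) (R.mem' hab)).trans
        Set.subset_union_left)) (pth_seg ((R.conv b (R.mem_right hab) (R.mem_right hgb)).trans
        Set.subset_union_right))
    · exact Set.disjoint_union_left.2 ⟨(R.dis_S_of_sep sCa).symm, (R.dis_S_of_sep sCb).symm⟩
    · have f1 := za z rfl a rfl
      have f2 := zb z rfl b rfl
      exact Set.disjoint_union_left.2 ⟨(R.dis' f1.1 f1.2).symm.mono_right (R.pc_sub h5 h6),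
        (R.dis' f2.1 f2.2).symm.mono_right (R.pc_sub h5 h6)⟩
    · exact (R.dis_S_of_sep sCg).mono_right (R.pc_sub hga hgb)
  refine Set.disjoint_left.1 E3 mid ?_
  rw [R.sym]
  exact R.btw h5 hgz.symm h6 p5 p6

end Rep

end Pool.Agent.SEG
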